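import Pool.Agent.V11124.SK.Core

open Matrix MeasureTheory ProbabilityTheory Filter Topology Module
open scoped ComplexOrder RealInnerProductSpace ENNReal

namespace Pool.Agent.V11124.SK

set_option linter.all false

section nsq
variable {K : Type*} [RCLike K] {ι κ : Type*} [Fintype ι] [Fintype κ]

/-- squared Euclidean norm -/
def nsq (v : ι → K) : ℝ := ∑ i, ‖v i‖ ^ 2

lemma nsq_nonneg (v : ι → K) : 0 ≤ nsq v := by unfold nsq; positivity

lemma nsq_eq (v : ι → K) : nsq v = RCLike.re (star v ⬝ᵥ v) := by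
  unfold nsq dotProduct
  rw [map_sum]
  refine Finset.sum_congr rfl fun i _ => ?_
  rw [Pi.star_apply, RCLike.star_def, RCLike.conj_mul]
  norm_cast

lemma re_dot_comm (v w : ι → K) : RCLike.re (star w ⬝ᵥ v) = RCLike.re (star v ⬝ᵥ w) := by
  have : star (star v ⬝ᵥ w) = star w ⬝ᵥ v := (Matrix.star_dotProduct w v).symm
  rw [← this, RCLike.star_def, RCLike.conj_re]

lemma nsq_add (v w : ι → K) : nsq (v + w) = nsq v + 2 * RCLike.re (star v ⬝ᵥ w) + nsq w := by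
  rw [nsq_eq, nsq_eq, nsq_eq, star_add, add_dotProduct, dotProduct_add, dotProduct_add,
    map_add, map_add, map_add, re_dot_comm v w]
  ring

lemma nsq_sub (v w : ι → K) : nsq (v - w) = nsq v - 2 * RCLike.re (star v ⬝ᵥ w) + nsq w := by
  rw [nsq_eq, nsq_eq, nsq_eq, star_sub, sub_dotProduct, dotProduct_sub, dotProduct_sub,
    map_sub, map_sub, map_sub, re_dot_comm v w]
  ring

lemma nsq_smul (c : ℝ) (v : ι → K) : nsq (c • v) = c ^ 2 * nsq v := by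
  unfold nsq
  rw [Finset.mul_sum]
  refine Finset.sum_congr rfl fun i _ => ?_
  rw [Pi.smul_apply, norm_smul, mul_pow, Real.norm_eq_abs, sq_abs]

lemma par (y w : ι → K) : nsq (y + w) + nsq (w - y) = 2 * nsq y + 2 * nsq w := by
  rw [nsq_add, nsq_sub, re_dot_comm y w]; ring

lemma proj_nsq {P : Matrix ι ι K} (h1 : Pᴴ = P) (h2 : P * P = P) (v : ι → K) :
    nsq (P *ᵥ v) = RCLike.re (star v ⬝ᵥ (P *ᵥ v)) := by
  rw [nsq_eq, star_mulVec, h1, ← dotProduct_mulVec, mulVec_mulVec, h2]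

lemma proj_contr [DecidableEq ι] {P : Matrix ι ι K} (h1 : Pᴴ = P) (h2 : P * P = P) (v : ι → K) :
    nsq (P *ᵥ v) ≤ nsq v := by
  have h3 : (1 - P)ᴴ = 1 - P := by rw [conjTranspose_sub, conjTranspose_one, h1]
  have h4 : (1 - P) * (1 - P) = 1 - P := by
    rw [mul_sub, sub_mul, sub_mul, h2]; simp
  have h5 := proj_nsq h3 h4 v
  have h6 := nsq_nonneg ((1 - P) *ᵥ v)
  rw [h5, Matrix.sub_mulVec, one_mulVec, dotProduct_sub, map_sub, ← nsq_eq, ← proj_nsq h1 h2] at h6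
  linarith

end nsq

section R
variable {K : Type*} [RCLike K] {l r : Type*} [Fintype l] [Fintype r] [DecidableEq l]
  [DecidableEq r]

/-- the projection onto the orthogonal complement of the column space -/
noncomputable def R (A : Matrix l r K) : Matrix l l K := 1 - A * (Aᴴ * A)⁻¹ * Aᴴ

lemma R_mul {A : Matrix l r K} (hA : IsUnit (Aᴴ * A).det) : R A * A = 0 := by
  unfold R
  rw [Matrix.sub_mul, Matrix.one_mul, Matrix.mul_assoc, Matrix.mul_assoc, Matrix.nonsing_inv_mul _ hA,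
    Matrix.mul_one, sub_self]

lemma gram_inv_herm (A : Matrix l r K) : ((Aᴴ * A)⁻¹)ᴴ = (Aᴴ * A)⁻¹ := by
  rw [conjTranspose_nonsing_inv, conjTranspose_mul, conjTranspose_conjTranspose]

lemma P_herm (A : Matrix l r K) : (A * (Aᴴ * A)⁻¹ * Aᴴ)ᴴ = A * (Aᴴ * A)⁻¹ * Aᴴ := by
  rw [conjTranspose_mul, conjTranspose_mul, conjTranspose_conjTranspose, gram_inv_herm,
    Matrix.mul_assoc]

lemma R_herm (A : Matrix l r K) : (R A)ᴴ = R A := by
  unfold R
  rw [conjTranspose_sub, conjTranspose_one, P_herm]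

lemma R_idem {A : Matrix l r K} (hA : IsUnit (Aᴴ * A).det) : R A * R A = R A := by
  have h := R_mul hA
  conv_lhs => rhs; unfold R
  rw [Matrix.mul_sub, Matrix.mul_one, ← Matrix.mul_assoc, ← Matrix.mul_assoc, h, Matrix.zero_mul,
    Matrix.zero_mul, sub_zero]

lemma frob_R {A : Matrix l r K} (hA : IsUnit (Aᴴ * A).det) :
    frob2 (R A) = Fintype.card l - Fintype.card r := by
  rw [frob2_eq, R_herm, R_idem hA]
  unfold R
  rw [Matrix.trace_sub, Matrix.trace_one, Matrix.trace_mul_comm, ← Matrix.mul_assoc,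
    Matrix.mul_nonsing_inv _ hA, Matrix.trace_one, map_sub]
  simp

end R

section meas
variable {K : Type*} [RCLike K] [MeasurableSpace K] [BorelSpace K]

lemma meas_mulVec {Q : Type*} [MeasurableSpace Q] {l r : Type*} [Fintype l] [Fintype r]
    {A : Q → (l × r → K)} {v : Q → (r → K)} (hA : Measurable A) (hv : Measurable v) :
    Measurable (fun q => toM (A q) *ᵥ v q) := by
  refine measurable_pi_iff.2 fun i => ?_
  simp only [Matrix.mulVec, dotProduct, toM, Matrix.of_apply]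
  refine Finset.measurable_sum _ fun j _ => ?_
  exact ((measurable_pi_apply _).comp hA).mul ((measurable_pi_apply _).comp hv)

lemma meas_mulVec_const {Q : Type*} [MeasurableSpace Q] {l r : Type*} [Fintype l] [Fintype r]
    (A : Matrix l r K) {v : Q → (r → K)} (hv : Measurable v) :
    Measurable (fun q => A *ᵥ v q) := by
  refine measurable_pi_iff.2 fun i => ?_
  simp only [Matrix.mulVec, dotProduct]
  refine Finset.measurable_sum _ fun j _ => ?_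
  exact ((measurable_pi_apply _).comp hv).const_mul _

lemma meas_nsq {Q : Type*} [MeasurableSpace Q] {l : Type*} [Fintype l] {v : Q → (l → K)}
    (hv : Measurable v) : Measurable (fun q => ENNReal.ofReal (nsq (v q))) := by
  unfold nsq
  refine ENNReal.measurable_ofReal.comp (Finset.measurable_sum _ fun i _ => ?_)
  exact (((measurable_pi_apply i).comp hv).norm).pow_const 2

end meas

section bayes
variable {K : Type*} [RCLike K] [MeasurableSpace K] [BorelSpace K]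
  {l r : Type} [Fintype l] [Fintype r] [DecidableEq l] [DecidableEq r]

/-- the residual part -/
lemma bayes_top {A : Matrix l r K} (hA : IsUnit (Aᴴ * A).det) (s : ℝ)
    (Xh : (l → K) → (r → K)) :
    ENNReal.ofReal (finrank ℝ K * ((Fintype.card l : ℝ) - Fintype.card r)) ≤
    ∫⁻ p : (r → K) × (l → K), ENNReal.ofReal (nsq (A *ᵥ (s • p.1) + p.2 -
      A *ᵥ Xh (A *ᵥ (s • p.1) + p.2))) ∂((G K r).prod (G K l)) := by
  have h1 := second_mat2 (ι := r) (0 : Matrix l r K) (R A)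
  have h0 : frob2 (0 : Matrix l r K) = 0 := by simp [frob2]
  rw [h0, zero_add, frob_R hA] at h1
  rw [← h1]
  refine lintegral_mono fun p => ENNReal.ofReal_le_ofReal ?_
  have h2 : (0 : Matrix l r K) *ᵥ p.1 = 0 := by simp
  have h3 : ∑ i, ‖((0 : Matrix l r K) *ᵥ p.1) i + (R A *ᵥ p.2) i‖ ^ 2 = nsq (R A *ᵥ p.2) := by
    rw [h2]; unfold nsq; simp
  show ∑ i, ‖((0 : Matrix l r K) *ᵥ p.1) i + (R A *ᵥ p.2) i‖ ^ 2 ≤ _
  rw [h3]
  have h4 : R A *ᵥ p.2 = R A *ᵥ (A *ᵥ (s • p.1) + p.2 - A *ᵥ Xh (A *ᵥ (s • p.1) + p.2)) := by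
    rw [Matrix.mulVec_sub, Matrix.mulVec_add, mulVec_mulVec, mulVec_mulVec, R_mul hA]
    simp
  rw [h4]
  exact proj_contr (R_herm A) (R_idem hA) _

/-- the real-linear map given by a matrix -/
noncomputable def mvl (A : Matrix l r K) : (r → K) →ₗ[ℝ] (l → K) := A.mulVecLin.restrictScalars ℝ

/-- the reflection -/
noncomputable def refl (A : Matrix l r K) (σ : ℝ) :
    ((r → K) × (l → K)) →ₗ[ℝ] ((r → K) × (l → K)) :=
  let X : ((r → K) × (l → K)) →ₗ[ℝ] (r → K) := σ⁻¹ • LinearMap.fst ℝ _ _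
  let B : ((r → K) × (l → K)) →ₗ[ℝ] (l → K) := mvl A ∘ₗ X + LinearMap.snd ℝ _ _
  let m : ((r → K) × (l → K)) →ₗ[ℝ] (r → K) := mvl (M A (σ ^ 2) * Aᴴ) ∘ₗ B
  LinearMap.prod (σ • ((2 : ℝ) • m - X)) (B - mvl A ∘ₗ ((2 : ℝ) • m - X))

lemma refl_apply (A : Matrix l r K) (σ : ℝ) (p : (r → K) × (l → K)) :
    refl A σ p = (σ • ((2 : ℝ) • ((M A (σ ^ 2) * Aᴴ) *ᵥ (A *ᵥ (σ⁻¹ • p.1) + p.2)) - σ⁻¹ • p.1),
      (A *ᵥ (σ⁻¹ • p.1) + p.2) - A *ᵥ ((2 : ℝ) • ((M A (σ ^ 2) * Aᴴ) *ᵥ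
        (A *ᵥ (σ⁻¹ • p.1) + p.2)) - σ⁻¹ • p.1)) := rfl

lemma refl_key (A : Matrix l r K) {σ : ℝ} (hσ : 0 < σ) (b : l → K) :
    Aᴴ *ᵥ (b - A *ᵥ ((M A (σ ^ 2) * Aᴴ) *ᵥ b)) = (σ ^ 2 : ℝ) • ((M A (σ ^ 2) * Aᴴ) *ᵥ b) := by
  have h := S_mul_M A (ε := σ ^ 2) (by positivity)
  have h2 : S A (σ ^ 2) *ᵥ ((M A (σ ^ 2) * Aᴴ) *ᵥ b) = Aᴴ *ᵥ b := by
    rw [mulVec_mulVec, ← Matrix.mul_assoc, h, Matrix.one_mul]
  unfold S at h2
  rw [Matrix.add_mulVec, Matrix.smul_mulVec, Matrix.one_mulVec, ← mulVec_mulVec] at h2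
  rw [Matrix.mulVec_sub, ← h2]
  rw [add_sub_cancel_left]
  ext i
  simp only [Pi.smul_apply, smul_eq_mul, RCLike.real_smul_eq_coe_mul]

lemma refl_nsq (A : Matrix l r K) {σ : ℝ} (hσ : 0 < σ) (p : (r → K) × (l → K)) :
    nsq (refl A σ p).1 + nsq (refl A σ p).2 = nsq p.1 + nsq p.2 := by
  rw [refl_apply]
  set x := σ⁻¹ • p.1 with hx
  set b := A *ᵥ x + p.2 with hb
  set m := (M A (σ ^ 2) * Aᴴ) *ᵥ b with hm
  have hkey := refl_key A hσ b
  rw [← hm] at hkey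
  have e1 : p.1 = σ • x := by rw [hx, smul_smul, mul_inv_cancel₀ hσ.ne', one_smul]
  have e2 : p.2 = b - A *ᵥ x := by rw [hb]; simp
  rw [e1, e2]
  show nsq (σ • ((2 : ℝ) • m - x)) + nsq (b - A *ᵥ ((2 : ℝ) • m - x)) =
    nsq (σ • x) + nsq (b - A *ᵥ x)
  obtain ⟨u, hu⟩ : ∃ u, x = m + u := ⟨x - m, by simp⟩
  have e3 : (2 : ℝ) • m - x = m - u := by rw [hu, two_smul]; abel
  rw [e3, hu, nsq_smul, nsq_smul, nsq_sub m u, nsq_add m u]
  have e4 : b - A *ᵥ (m - u) = (b - A *ᵥ m) + A *ᵥ u := by rw [mulVec_sub]; abel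
  have e5 : b - A *ᵥ (m + u) = (b - A *ᵥ m) - A *ᵥ u := by rw [mulVec_add]; abel
  rw [e4, e5, nsq_add (b - A *ᵥ m) (A *ᵥ u), nsq_sub (b - A *ᵥ m) (A *ᵥ u)]
  have e6 : RCLike.re (star (b - A *ᵥ m) ⬝ᵥ (A *ᵥ u)) = σ ^ 2 * RCLike.re (star m ⬝ᵥ u) := by
    have h1 : star (b - A *ᵥ m) ⬝ᵥ (A *ᵥ u) = star (Aᴴ *ᵥ (b - A *ᵥ m)) ⬝ᵥ u := by
      rw [star_mulVec, conjTranspose_conjTranspose, ← dotProduct_mulVec]
    rw [h1, hkey]
    have h2 : star ((σ ^ 2 : ℝ) • m) ⬝ᵥ u = ((σ ^ 2 : ℝ) : K) * (star m ⬝ᵥ u) := by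
      simp only [dotProduct, Finset.mul_sum]
      refine Finset.sum_congr rfl fun i _ => ?_
      simp only [Pi.star_apply, Pi.smul_apply, star_smul, star_trivial, smul_mul_assoc]
      rw [RCLike.real_smul_eq_coe_mul]
    rw [h2, RCLike.re_ofReal_mul]
  rw [e6]
  ring

lemma refl_mp (A : Matrix l r K) {σ : ℝ} (hσ : 0 < σ) :
    MeasurePreserving (refl A σ) ((G K r).prod (G K l)) ((G K r).prod (G K l)) := by
  have h := (GS.base (K := K) r).prod (GS.base (K := K) l)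
  refine GS.isom h h (refl A σ) (fun p => ?_) rfl
  exact refl_nsq A hσ p

/-- Bayes lower bound for the estimation part -/
lemma bayes_est (A : Matrix l r K) {σ : ℝ} (hσ : 0 < σ) {Xh : (l → K) → (r → K)}
    (hX : Measurable Xh) :
    ENNReal.ofReal (finrank ℝ K * tr A (σ ^ 2)) ≤
    ∫⁻ p : (r → K) × (l → K), ENNReal.ofReal (nsq (σ⁻¹ • p.1 - Xh (A *ᵥ (σ⁻¹ • p.1) + p.2)))
      ∂((G K r).prod (G K l)) := by
  have hε : (0 : ℝ) < σ ^ 2 := by positivity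
  set f : (r → K) × (l → K) → ℝ≥0∞ := fun p =>
    ENNReal.ofReal (nsq (σ⁻¹ • p.1 - Xh (A *ᵥ (σ⁻¹ • p.1) + p.2))) with hf
  have hmx : Measurable (fun p : (r → K) × (l → K) => σ⁻¹ • p.1) := by fun_prop
  have hmb : Measurable (fun p : (r → K) × (l → K) => A *ᵥ (σ⁻¹ • p.1) + p.2) :=
    (meas_mulVec_const A hmx).add measurable_snd
  have hfm : Measurable f := meas_nsq (hmx.sub (hX.comp hmb))
  have h1 : ∫⁻ p, f (refl A σ p) ∂((G K r).prod (G K l)) = ∫⁻ p, f p ∂((G K r).prod (G K l)) :=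
    (refl_mp A hσ).lintegral_comp hfm
  have h2 := second_mat2 ((σ : K) • M A (σ ^ 2)) (-(M A (σ ^ 2) * Aᴴ))
  have h3 : frob2 ((σ : K) • M A (σ ^ 2)) + frob2 (-(M A (σ ^ 2) * Aᴴ)) = tr A (σ ^ 2) := by
    have a1 : frob2 ((σ : K) • M A (σ ^ 2)) = σ ^ 2 * frob2 (M A (σ ^ 2)) := by
      unfold frob2
      simp only [Matrix.smul_apply, smul_eq_mul, norm_mul, mul_pow, RCLike.norm_ofReal, sq_abs,
        Finset.mul_sum]
    have a2 : frob2 (-(M A (σ ^ 2) * Aᴴ)) = frob2 (A * M A (σ ^ 2)) := by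
      have : -(M A (σ ^ 2) * Aᴴ) = -(A * M A (σ ^ 2))ᴴ := by
        rw [conjTranspose_mul, M_herm A hε]
      rw [this]
      unfold frob2
      rw [Finset.sum_comm]
      simp only [Matrix.neg_apply, norm_neg, conjTranspose_apply, norm_star]
    rw [a1, a2, frobAM A hε]
    ring
  rw [h3] at h2
  have h4 : ∀ p : (r → K) × (l → K), 2 * ENNReal.ofReal
      (∑ i, ‖(((σ : K) • M A (σ ^ 2)) *ᵥ p.1) i + ((-(M A (σ ^ 2) * Aᴴ)) *ᵥ p.2) i‖ ^ 2) ≤
      f p + f (refl A σ p) := by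
    intro p
    set x := σ⁻¹ • p.1 with hx
    set b := A *ᵥ x + p.2 with hb
    set m := (M A (σ ^ 2) * Aᴴ) *ᵥ b with hm
    have e0 : refl A σ p = (σ • ((2 : ℝ) • m - x), b - A *ᵥ ((2 : ℝ) • m - x)) := rfl
    have e1 : σ⁻¹ • (refl A σ p).1 = (2 : ℝ) • m - x := by
      rw [e0]; simp only; rw [smul_smul, inv_mul_cancel₀ hσ.ne', one_smul]
    have e2 : A *ᵥ (σ⁻¹ • (refl A σ p).1) + (refl A σ p).2 = b := by
      rw [e1, e0]; simp
    have e3 : f (refl A σ p) = ENNReal.ofReal (nsq ((2 : ℝ) • m - x - Xh b)) := by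
      rw [hf]; simp only; rw [e2, e1]
    have e4 : f p = ENNReal.ofReal (nsq (x - Xh b)) := rfl
    have e5 : ((σ : K) • M A (σ ^ 2)) *ᵥ p.1 + (-(M A (σ ^ 2) * Aᴴ)) *ᵥ p.2 = x - m := by
      have g1 : p.1 = σ • x := by rw [hx, smul_smul, mul_inv_cancel₀ hσ.ne', one_smul]
      have g2 : m = (M A (σ ^ 2) * (Aᴴ * A)) *ᵥ x + (M A (σ ^ 2) * Aᴴ) *ᵥ p.2 := by
        rw [hm, hb, mulVec_add, mulVec_mulVec, Matrix.mul_assoc]
      rw [g2, M_gram A hε, Matrix.sub_mulVec, Matrix.one_mulVec, Matrix.neg_mulVec, g1]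
      have g3 : ((σ : K) • M A (σ ^ 2)) *ᵥ (σ • x) = (((σ ^ 2 : ℝ) : K) • M A (σ ^ 2)) *ᵥ x := by
        have : (σ • x : r → K) = (σ : K) • x := by
          ext i; simp [RCLike.real_smul_eq_coe_mul]
        rw [this, Matrix.mulVec_smul, Matrix.smul_mulVec, Matrix.smul_mulVec, smul_smul]
        congr 1
        push_cast
        ring
      rw [g3]
      abel
    have e6 : (∑ i, ‖(((σ : K) • M A (σ ^ 2)) *ᵥ p.1) i +
        ((-(M A (σ ^ 2) * Aᴴ)) *ᵥ p.2) i‖ ^ 2) = nsq (x - m) := by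
      rw [← e5]; rfl
    rw [e6, e3, e4]
    rw [← ENNReal.ofReal_add (nsq_nonneg _) (nsq_nonneg _)]
    have e7 : (2 : ℝ≥0∞) = ENNReal.ofReal 2 := by simp
    rw [e7, ← ENNReal.ofReal_mul (by norm_num)]
    refine ENNReal.ofReal_le_ofReal ?_
    have e8 : x - Xh b = (x - m) + (m - Xh b) := by abel
    have e9 : (2 : ℝ) • m - x - Xh b = (m - Xh b) - (x - m) := by rw [two_smul]; abel
    rw [e8, e9, par]
    linarith [nsq_nonneg (m - Xh b)]
  have h5 : 2 * ENNReal.ofReal (finrank ℝ K * tr A (σ ^ 2)) ≤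
      2 * ∫⁻ p, f p ∂((G K r).prod (G K l)) := by
    rw [← h2, ← lintegral_const_mul']
    · calc _ ≤ ∫⁻ p, (f p + f (refl A σ p)) ∂((G K r).prod (G K l)) := lintegral_mono h4
        _ = _ := by rw [lintegral_add_left hfm, h1, two_mul]
    · simp
  exact (ENNReal.mul_le_mul_iff_right (by simp) (by simp)).1 h5

end bayes

end Pool.Agent.V11124.SK
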