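import Pool.Agent.V11124.SK.Trace

open Matrix MeasureTheory ProbabilityTheory Filter Topology Module
open scoped ComplexOrder RealInnerProductSpace ENNReal

namespace Pool.Agent.V11124.SK

set_option linter.all false

section GS

variable (K : Type*) [RCLike K] [MeasurableSpace K] [BorelSpace K]

/-- `μ` is a standard Gaussian measure with squared norm `N` -/
structure GS {E : Type*} [AddCommGroup E] [Module ℝ E] [MeasurableSpace E] (μ : Measure E)
    (N : E → ℝ) : Prop where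
  ex : ∃ (ι : Type) (_ : Fintype ι) (e : (ι → K) ≃ₗ[ℝ] E), Measurable e.symm ∧
    MeasurePreserving e (G K ι) μ ∧ ∀ x, N (e x) = ∑ i, ‖x i‖ ^ 2

variable {K}

lemma GS.base (ι : Type) [Fintype ι] : GS K (G K ι) (fun x : ι → K => ∑ i, ‖x i‖ ^ 2) :=
  ⟨ι, inferInstance, LinearEquiv.refl ℝ _, measurable_id, MeasurePreserving.id _, fun _ => rfl⟩

variable {E F : Type*} [AddCommGroup E] [Module ℝ E] [MeasurableSpace E] [AddCommGroup F]
  [Module ℝ F] [MeasurableSpace F]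

lemma GS.isom {μ : Measure E} {N : E → ℝ} {ν : Measure F} {N' : F → ℝ} (h1 : GS K μ N)
    (h2 : GS K ν N') (t : E →ₗ[ℝ] F) (hN : ∀ x, N' (t x) = N x)
    (hfin : finrank ℝ E = finrank ℝ F) : MeasurePreserving t μ ν := by
  obtain ⟨ι, _, e, hes, hem, heN⟩ := h1.ex
  obtain ⟨κ, _, e', hes', hem', heN'⟩ := h2.ex
  let t' : (ι → K) →ₗ[ℝ] (κ → K) := e'.symm.toLinearMap ∘ₗ t ∘ₗ e.toLinearMap
  have hc : Fintype.card ι = Fintype.card κ := by
    have h3 : finrank ℝ (ι → K) = finrank ℝ (κ → K) := by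
      rw [LinearEquiv.finrank_eq e, LinearEquiv.finrank_eq e', hfin]
    rw [Module.finrank_pi_fintype, Module.finrank_pi_fintype] at h3
    simp only [Finset.sum_const, Finset.card_univ, smul_eq_mul] at h3
    exact Nat.eq_of_mul_eq_mul_right (Module.finrank_pos (R := ℝ) (M := K)) h3
  have ht' : MeasurePreserving t' (G K ι) (G K κ) := by
    refine G_isom t' (fun x => ?_) hc
    rw [← heN', ← heN, ← hN]
    simp [t']
  have hsymm : MeasurePreserving e.symm μ (G K ι) := by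
    refine ⟨hes, ?_⟩
    rw [← hem.map_eq, Measure.map_map hes hem.measurable]
    have : (e.symm : E → (ι → K)) ∘ e = id := by ext x; simp
    rw [this, Measure.map_id]
  have hcomp := hem'.comp (ht'.comp hsymm)
  have : (e' : (κ → K) → F) ∘ t' ∘ (e.symm : E → (ι → K)) = t := by
    ext x; simp [t']
  rwa [this] at hcomp

lemma GS.prod {μ : Measure E} {N : E → ℝ} {ν : Measure F} {N' : F → ℝ} [SFinite μ] [SFinite ν]
    (h1 : GS K μ N) (h2 : GS K ν N') : GS K (μ.prod ν) (fun p : E × F => N p.1 + N' p.2) := by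
  obtain ⟨ι, _, e, hes, hem, heN⟩ := h1.ex
  obtain ⟨κ, _, e', hes', hem', heN'⟩ := h2.ex
  refine ⟨ι ⊕ κ, inferInstance,
    (LinearEquiv.sumArrowLequivProdArrow ι κ ℝ K).trans (e.prodCongr e'), ?_, ?_, ?_⟩
  · have h3 : Measurable (fun p : E × F => ((e.symm p.1, e'.symm p.2) : (ι → K) × (κ → K))) :=
      (hes.comp measurable_fst).prodMk (hes'.comp measurable_snd)
    exact (MeasurableEquiv.sumPiEquivProdPi (fun _ : ι ⊕ κ => K)).symm.measurable.comp h3
  · exact (hem.prod hem').comp (G_sum (ι := ι) (κ := κ))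
  · intro x
    rw [Fintype.sum_sum_type]
    simp only [LinearEquiv.trans_apply]
    show N (e _) + N' (e' _) = _
    rw [heN, heN']
    rfl

end GS

section second
variable {K : Type*} [RCLike K] [MeasurableSpace K] [BorelSpace K]

lemma G_second2 {ι κ : Type*} [Fintype ι] [Fintype κ] (c : ι → K) (d : κ → K) :
    ∫⁻ p, ENNReal.ofReal (‖∑ i, c i * p.1 i + ∑ j, d j * p.2 j‖ ^ 2) ∂((G K ι).prod (G K κ)) =
      ENNReal.ofReal (finrank ℝ K * (∑ i, ‖c i‖ ^ 2 + ∑ j, ‖d j‖ ^ 2)) := by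
  have hm : Measurable (fun p : (ι → K) × (κ → K) =>
      ENNReal.ofReal (‖∑ i, c i * p.1 i + ∑ j, d j * p.2 j‖ ^ 2)) := by fun_prop
  rw [← (G_sum (ι := ι) (κ := κ)).lintegral_comp hm]
  have := G_second (Sum.elim c d)
  rw [Fintype.sum_sum_type] at this
  simp only [Sum.elim_inl, Sum.elim_inr] at this
  rw [← this]
  refine lintegral_congr fun w => ?_
  rw [Fintype.sum_sum_type]
  rfl

lemma second_rows {k r : Type*} [Fintype k] [Fintype r] [DecidableEq k] (v : r → K) :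
    ∫⁻ p, ENNReal.ofReal (∑ i, ‖(toM p.1 *ᵥ v) i + p.2 i‖ ^ 2) ∂((G K (k × r)).prod (G K k)) =
      ENNReal.ofReal (finrank ℝ K * (Fintype.card k * (∑ j, ‖v j‖ ^ 2 + 1))) := by
  have h1 : ∀ p : (k × r → K) × (k → K), ENNReal.ofReal (∑ i, ‖(toM p.1 *ᵥ v) i + p.2 i‖ ^ 2) =
      ∑ i, ENNReal.ofReal (‖∑ q, (if q.1 = i then v q.2 else 0) * p.1 q +
        ∑ j, (Pi.single i 1 : k → K) j * p.2 j‖ ^ 2) := by
    intro p
    rw [← ENNReal.ofReal_sum_of_nonneg (fun _ _ => sq_nonneg _)]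
    congr 1
    refine Finset.sum_congr rfl fun i _ => ?_
    congr 3
    · rw [Fintype.sum_prod_type, Finset.sum_eq_single i]
      · simp [Matrix.mulVec, dotProduct, toM, mul_comm]
      · intro b _ hb; simp [hb]
      · simp
    · rw [Finset.sum_eq_single i]
      · simp
      · intro b _ hb; simp [hb]
      · simp
  simp_rw [h1]
  rw [lintegral_finsetSum _ (fun i _ => by fun_prop)]
  simp_rw [G_second2]
  have h2 : ∀ i : k, (∑ q : k × r, ‖(if q.1 = i then v q.2 else 0 : K)‖ ^ 2 +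
      ∑ j, ‖(Pi.single i 1 : k → K) j‖ ^ 2) = ∑ j, ‖v j‖ ^ 2 + 1 := by
    intro i
    congr 1
    · rw [Fintype.sum_prod_type, Finset.sum_eq_single i]
      · simp
      · intro b _ hb; simp [hb]
      · simp
    · rw [Finset.sum_eq_single i]
      · simp
      · intro b _ hb; simp [hb]
      · simp
  simp_rw [h2]
  rw [Finset.sum_const, Finset.card_univ, nsmul_eq_mul, ← ENNReal.ofReal_natCast,
    ← ENNReal.ofReal_mul (by positivity)]
  congr 1
  ring

/-- second moment of a linear image -/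
lemma second_mat {ι κ : Type*} [Fintype ι] [Fintype κ] (C : Matrix κ ι K) :
    ∫⁻ w, ENNReal.ofReal (∑ i, ‖(C *ᵥ w) i‖ ^ 2) ∂(G K ι) =
      ENNReal.ofReal (finrank ℝ K * frob2 C) := by
  simp_rw [ENNReal.ofReal_sum_of_nonneg (fun (i : κ) (_ : i ∈ Finset.univ) => sq_nonneg _)]
  rw [lintegral_finsetSum _ (fun i _ => by
    have : Measurable (fun w : ι → K => (C *ᵥ w) i) := by
      simp only [Matrix.mulVec, dotProduct]; fun_prop
    fun_prop)]
  have : ∀ i, ∫⁻ w, ENNReal.ofReal (‖(C *ᵥ w) i‖ ^ 2) ∂(G K ι) =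
      ENNReal.ofReal (finrank ℝ K * ∑ j, ‖C i j‖ ^ 2) := fun i => G_second (fun j => C i j)
  simp_rw [this]
  rw [← ENNReal.ofReal_sum_of_nonneg (fun _ _ => by positivity)]
  congr 1
  rw [← Finset.mul_sum]; rfl

lemma second_mat2 {ι κ ρ : Type*} [Fintype ι] [Fintype κ] [Fintype ρ] (C : Matrix ρ ι K)
    (D : Matrix ρ κ K) :
    ∫⁻ p, ENNReal.ofReal (∑ i, ‖(C *ᵥ p.1) i + (D *ᵥ p.2) i‖ ^ 2) ∂((G K ι).prod (G K κ)) =
      ENNReal.ofReal (finrank ℝ K * (frob2 C + frob2 D)) := by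
  simp_rw [ENNReal.ofReal_sum_of_nonneg (fun (i : ρ) (_ : i ∈ Finset.univ) => sq_nonneg _)]
  rw [lintegral_finsetSum _ (fun i _ => by
    have h1 : Measurable (fun p : (ι → K) × (κ → K) => (C *ᵥ p.1) i) := by
      simp only [Matrix.mulVec, dotProduct]; fun_prop
    have h2 : Measurable (fun p : (ι → K) × (κ → K) => (D *ᵥ p.2) i) := by
      simp only [Matrix.mulVec, dotProduct]; fun_prop
    fun_prop)]
  have : ∀ i, ∫⁻ p, ENNReal.ofReal (‖(C *ᵥ p.1) i + (D *ᵥ p.2) i‖ ^ 2) ∂((G K ι).prod (G K κ)) =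
      ENNReal.ofReal (finrank ℝ K * (∑ j, ‖C i j‖ ^ 2 + ∑ j, ‖D i j‖ ^ 2)) :=
    fun i => G_second2 (fun j => C i j) (fun j => D i j)
  simp_rw [this]
  rw [← ENNReal.ofReal_sum_of_nonneg (fun _ _ => by positivity)]
  congr 1
  rw [← Finset.mul_sum, Finset.sum_add_distrib]; rfl

end second

end Pool.Agent.V11124.SK
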