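import Mathlib

/-! Algorithms that see a random embedding `Ω` and the sketches `Ω^* A`, `Ω^* B`. -/

open Matrix MeasureTheory
open scoped ENNReal

namespace Pool.Agent.V11124.SK.Stmt

/-- The product σ-algebra on matrices. -/
instance instMeasMat {K : Type*} [MeasurableSpace K] {m n : Type*} :
    MeasurableSpace (Matrix m n K) := MeasurableSpace.pi

variable {K : Type*} [RCLike K]

/-- The squared Frobenius norm. -/
def frobSq {m n : ℕ} (X : Matrix (Fin m) (Fin n) K) : ℝ := ∑ i, ∑ j, ‖X i j‖ ^ 2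

/-- `X` is the Moore-Penrose pseudoinverse of `A` (the four Penrose equations). -/
structure IsPinv {n d : ℕ} (A : Matrix (Fin n) (Fin d) K) (X : Matrix (Fin d) (Fin n) K) :
    Prop where
  one : A * X * A = A
  two : X * A * X = X
  three : (A * X)ᴴ = A * X
  four : (X * A)ᴴ = X * A

variable {n l d p : ℕ} {S : Type*} [MeasurableSpace S]

/-- `E ‖B - A ALG(Ω, Ω^* A, Ω^* B)‖_F^2 / ‖B - A A^+ B‖_F^2`, with `Ap = A^+`; the expectation is
over the probability measure `P` on `S` on which the random matrix `Ω` is defined. -/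
noncomputable def errRatio (P : Measure S) (Ω : S → Matrix (Fin n) (Fin l) K)
    (alg : Matrix (Fin n) (Fin l) K × Matrix (Fin l) (Fin d) K × Matrix (Fin l) (Fin p) K →
      Matrix (Fin d) (Fin p) K)
    (A : Matrix (Fin n) (Fin d) K) (Ap : Matrix (Fin d) (Fin n) K)
    (B : Matrix (Fin n) (Fin p) K) : ℝ≥0∞ :=
  (∫⁻ s, ENNReal.ofReal (frobSq (B - A * alg (Ω s, (Ω s)ᴴ * A, (Ω s)ᴴ * B))) ∂P) /
    ENNReal.ofReal (frobSq (B - A * Ap * B))

/-- The supremum of `errRatio` over all `A` of rank `r` and all `B ≠ A A^+ B`. -/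
noncomputable def worst (P : Measure S) (Ω : S → Matrix (Fin n) (Fin l) K)
    (alg : Matrix (Fin n) (Fin l) K × Matrix (Fin l) (Fin d) K × Matrix (Fin l) (Fin p) K →
      Matrix (Fin d) (Fin p) K) (r : ℕ) : ℝ≥0∞ :=
  ⨆ (A : Matrix (Fin n) (Fin d) K) (Ap : Matrix (Fin d) (Fin n) K)
    (B : Matrix (Fin n) (Fin p) K) (_ : A.rank = r) (_ : IsPinv A Ap) (_ : B ≠ A * Ap * B),
    errRatio P Ω alg A Ap B

end Pool.Agent.V11124.SK.Stmt
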