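import Mathlib

open Matrix
open scoped ComplexOrder

namespace Pool.Agent.V11124.SK

variable {K : Type*} [RCLike K] {m r : Type*} [Fintype m] [Fintype r] [DecidableEq r]

/-- squared Frobenius norm -/
def frob2 {m r : Type*} [Fintype m] [Fintype r] (X : Matrix m r K) : ℝ := ∑ i, ∑ j, ‖X i j‖ ^ 2

omit [DecidableEq r] in
lemma frob2_eq (X : Matrix m r K) : frob2 X = RCLike.re (Xᴴ * X).trace := by
  unfold frob2
  rw [Matrix.trace, map_sum, Finset.sum_comm]
  refine Finset.sum_congr rfl fun j _ => ?_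
  rw [Matrix.diag_apply, Matrix.mul_apply, map_sum]
  refine Finset.sum_congr rfl fun i _ => ?_
  rw [Matrix.conjTranspose_apply, RCLike.star_def, RCLike.conj_mul]
  norm_cast

omit [DecidableEq r] in
lemma frob2_nonneg (X : Matrix m r K) : 0 ≤ frob2 X := by
  unfold frob2; positivity

/-- regularised Gram matrix -/
noncomputable def S (A : Matrix m r K) (ε : ℝ) : Matrix r r K := Aᴴ * A + (ε : K) • 1
/-- its inverse -/
noncomputable def M (A : Matrix m r K) (ε : ℝ) : Matrix r r K := (S A ε)⁻¹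
/-- the trace of the inverse -/
noncomputable def tr (A : Matrix m r K) (ε : ℝ) : ℝ := RCLike.re (M A ε).trace

lemma S_posDef (A : Matrix m r K) {ε : ℝ} (hε : 0 < ε) : (S A ε).PosDef := by
  unfold S
  refine Matrix.PosDef.posSemidef_add (Matrix.posSemidef_conjTranspose_mul_self A) ?_
  exact Matrix.PosDef.smul Matrix.PosDef.one (by exact_mod_cast hε)

lemma S_mul_M (A : Matrix m r K) {ε : ℝ} (hε : 0 < ε) : S A ε * M A ε = 1 :=
  Matrix.mul_nonsing_inv _ ((Matrix.isUnit_iff_isUnit_det _).1 (S_posDef A hε).isUnit)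

lemma M_mul_S (A : Matrix m r K) {ε : ℝ} (hε : 0 < ε) : M A ε * S A ε = 1 :=
  Matrix.nonsing_inv_mul _ ((Matrix.isUnit_iff_isUnit_det _).1 (S_posDef A hε).isUnit)

lemma M_posDef (A : Matrix m r K) {ε : ℝ} (hε : 0 < ε) : (M A ε).PosDef := (S_posDef A hε).inv

lemma M_herm (A : Matrix m r K) {ε : ℝ} (hε : 0 < ε) : (M A ε)ᴴ = M A ε :=
  (M_posDef A hε).isHermitian

lemma M_gram (A : Matrix m r K) {ε : ℝ} (hε : 0 < ε) :
    M A ε * (Aᴴ * A) = 1 - (ε : K) • M A ε := by
  have := M_mul_S A hε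
  unfold S at this
  rw [mul_add, Matrix.mul_smul, mul_one] at this
  rw [← this]; abel

lemma gram_M (A : Matrix m r K) {ε : ℝ} (hε : 0 < ε) :
    Aᴴ * A * M A ε = 1 - (ε : K) • M A ε := by
  have := S_mul_M A hε
  unfold S at this
  rw [add_mul, Matrix.smul_mul, one_mul] at this
  rw [← this]; abel

lemma conjdiag {U : Matrix r r K} (h : star U * U = 1) (a b : r → ℝ) :
    U * diagonal (fun i => ((a i : ℝ) : K)) * star U *
      (U * diagonal (fun i => ((b i : ℝ) : K)) * star U) =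
      U * diagonal (fun i => ((a i * b i : ℝ) : K)) * star U := by
  have : diagonal (fun i => ((a i * b i : ℝ) : K)) =
      diagonal (fun i => ((a i : ℝ) : K)) * diagonal (fun i => ((b i : ℝ) : K)) := by
    rw [diagonal_mul_diagonal]
    congr 1
    ext i
    rw [RCLike.ofReal_mul]
  rw [this]
  calc _ = U * diagonal (fun i => ((a i : ℝ) : K)) * (star U * U) *
            diagonal (fun i => ((b i : ℝ) : K)) * star U := by
            simp only [Matrix.mul_assoc]
    _ = _ := by rw [h, mul_one]; simp only [Matrix.mul_assoc]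

/-- spectral data -/
lemma spec (A : Matrix m r K) : ∃ L : r → ℝ, (∀ i, 0 ≤ L i) ∧
    ((∀ i, 0 < L i) → IsUnit (Aᴴ * A).det) ∧
    ∀ ε : ℝ, 0 < ε → tr A ε = ∑ i, 1 / (L i + ε) ∧ frob2 (M A ε) = ∑ i, (1 / (L i + ε)) ^ 2 := by
  have hps := Matrix.posSemidef_conjTranspose_mul_self A
  have hH := hps.isHermitian
  set L := hH.eigenvalues with hL
  have h0 : ∀ i, 0 ≤ L i := fun i => hps.eigenvalues_nonneg i
  set U : Matrix r r K := (hH.eigenvectorUnitary : Matrix r r K) with hU
  have hUU : star U * U = 1 := Unitary.coe_star_mul_self hH.eigenvectorUnitary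
  have hUU' : U * star U = 1 := Unitary.coe_mul_star_self hH.eigenvectorUnitary
  have hsp : Aᴴ * A = U * diagonal (fun i => ((L i : ℝ) : K)) * star U := by
    have := hH.spectral_theorem
    rw [Unitary.conjStarAlgAut_apply] at this
    exact this
  refine ⟨L, h0, ?_, ?_⟩
  · intro hpos
    rw [hH.det_eq_prod_eigenvalues, isUnit_iff_ne_zero]
    refine Finset.prod_ne_zero_iff.2 fun i _ => ?_
    exact_mod_cast (hpos i).ne'
  · intro ε hε
    have hS : S A ε = U * diagonal (fun i => ((L i + ε : ℝ) : K)) * star U := by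
      unfold S
      rw [hsp]
      have h1 : (ε : K) • (1 : Matrix r r K) = U * ((ε : K) • 1) * star U := by
        rw [Matrix.mul_smul, mul_one, Matrix.smul_mul, hUU']
      have h2 : diagonal (fun i => ((L i + ε : ℝ) : K)) =
          diagonal (fun i => ((L i : ℝ) : K)) + (ε : K) • 1 := by
        ext i j
        by_cases h : i = j
        · subst h
          rw [diagonal_apply_eq, Matrix.add_apply, diagonal_apply_eq, Matrix.smul_apply,
            Matrix.one_apply_eq, smul_eq_mul, mul_one, RCLike.ofReal_add]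
        · simp [h]
      rw [h2, mul_add, add_mul, ← h1]
    have hM : M A ε = U * diagonal (fun i => ((1 / (L i + ε) : ℝ) : K)) * star U := by
      refine Matrix.inv_eq_right_inv ?_
      rw [hS, conjdiag hUU]
      have : diagonal (fun i => (((L i + ε) * (1 / (L i + ε)) : ℝ) : K)) = (1 : Matrix r r K) := by
        rw [← diagonal_one]
        congr 1
        ext i
        have : L i + ε ≠ 0 := by have := h0 i; positivity
        rw [mul_one_div_cancel this, RCLike.ofReal_one]
      rw [this, mul_one, hUU']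
    constructor
    · unfold tr
      rw [hM, Matrix.trace_mul_comm, ← mul_assoc, hUU, one_mul, Matrix.trace_diagonal, map_sum]
      exact Finset.sum_congr rfl fun i _ => RCLike.ofReal_re _
    · rw [frob2_eq, M_herm A hε, hM, conjdiag hUU, Matrix.trace_mul_comm, ← mul_assoc, hUU, one_mul,
        Matrix.trace_diagonal, map_sum]
      refine Finset.sum_congr rfl fun i _ => ?_
      rw [RCLike.ofReal_re, sq]

/-- consequences for the trace -/
lemma tr_nonneg (A : Matrix m r K) {ε : ℝ} (hε : 0 < ε) : 0 ≤ tr A ε := by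
  obtain ⟨L, h0, -, h⟩ := spec A
  rw [(h ε hε).1]
  refine Finset.sum_nonneg fun i _ => ?_
  have := h0 i
  positivity

lemma tr_le (A : Matrix m r K) {ε : ℝ} (hε : 0 < ε) : ε * tr A ε ≤ Fintype.card r := by
  obtain ⟨L, h0, -, h⟩ := spec A
  rw [(h ε hε).1, Finset.mul_sum]
  calc ∑ i, ε * (1 / (L i + ε)) ≤ ∑ i : r, (1 : ℝ) := by
        refine Finset.sum_le_sum fun i _ => ?_
        have := h0 i
        rw [mul_one_div, div_le_one (by positivity)]
        linarith
    _ = _ := by simp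

lemma frobM_le (A : Matrix m r K) {ε : ℝ} (hε : 0 < ε) : frob2 (M A ε) ≤ tr A ε ^ 2 := by
  obtain ⟨L, h0, -, h⟩ := spec A
  rw [(h ε hε).1, (h ε hε).2]
  have hp : ∀ i, 0 ≤ 1 / (L i + ε) := fun i => by have := h0 i; positivity
  rw [sq (∑ i, 1 / (L i + ε)), Finset.sum_mul]
  refine Finset.sum_le_sum fun i _ => ?_
  rw [sq]
  exact mul_le_mul_of_nonneg_left
    (Finset.single_le_sum (f := fun i => 1 / (L i + ε)) (fun j _ => hp j) (Finset.mem_univ i))
    (hp i)

lemma tr_anti (A : Matrix m r K) {ε ε' : ℝ} (hε : 0 < ε) (h' : ε ≤ ε') : tr A ε' ≤ tr A ε := by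
  obtain ⟨L, h0, -, h⟩ := spec A
  rw [(h ε hε).1, (h ε' (hε.trans_le h')).1]
  refine Finset.sum_le_sum fun i _ => ?_
  have := h0 i
  exact one_div_le_one_div_of_le (by positivity) (by linarith)

lemma tr_gap (A : Matrix m r K) {ε : ℝ} (hε : 0 < ε) :
    ε * tr A ε ^ 2 ≤ 2 * Fintype.card r * (tr A ε - tr A (2 * ε)) := by
  obtain ⟨L, h0, -, h⟩ := spec A
  rw [(h ε hε).1, (h (2 * ε) (by positivity)).1]
  have h1 : (∑ i, 1 / (L i + ε)) ^ 2 ≤ Fintype.card r * ∑ i, (1 / (L i + ε)) ^ 2 := by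
    simpa using sq_sum_le_card_mul_sum_sq (s := Finset.univ) (f := fun i => 1 / (L i + ε))
  have h2 : ε * ∑ i, (1 / (L i + ε)) ^ 2 ≤
      2 * (∑ i, 1 / (L i + ε) - ∑ i, 1 / (L i + 2 * ε)) := by
    rw [← Finset.sum_sub_distrib, Finset.mul_sum, Finset.mul_sum]
    refine Finset.sum_le_sum fun i _ => ?_
    have := h0 i
    have e : 2 * (1 / (L i + ε) - 1 / (L i + 2 * ε)) = ε * (2 / ((L i + ε) * (L i + 2 * ε))) := by
      field_simp
      ring
    rw [e]
    refine mul_le_mul_of_nonneg_left ?_ hε.le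
    rw [div_pow, one_pow, div_le_div_iff₀ (by positivity) (by positivity)]
    nlinarith [mul_nonneg this hε.le]
  calc ε * (∑ i, 1 / (L i + ε)) ^ 2 ≤ ε * (Fintype.card r * ∑ i, (1 / (L i + ε)) ^ 2) :=
        mul_le_mul_of_nonneg_left h1 hε.le
    _ = Fintype.card r * (ε * ∑ i, (1 / (L i + ε)) ^ 2) := by ring
    _ ≤ Fintype.card r * (2 * (∑ i, 1 / (L i + ε) - ∑ i, 1 / (L i + 2 * ε))) :=
        mul_le_mul_of_nonneg_left h2 (by positivity)
    _ = _ := by ring

/-- if the Gram matrix is singular then the trace is at least `1/ε` -/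
lemma tr_sing (A : Matrix m r K) (hA : ¬ IsUnit (Aᴴ * A).det) {ε : ℝ} (hε : 0 < ε) :
    1 / ε ≤ tr A ε := by
  obtain ⟨L, h0, hd, h⟩ := spec A
  have : ∃ i, L i = 0 := by
    by_contra hcon
    push Not at hcon
    exact hA (hd fun i => lt_of_le_of_ne (h0 i) (Ne.symm (hcon i)))
  obtain ⟨i, hi⟩ := this
  rw [(h ε hε).1]
  calc 1 / ε = 1 / (L i + ε) := by rw [hi, zero_add]
    _ ≤ ∑ i, 1 / (L i + ε) := by
      refine Finset.single_le_sum (f := fun i => 1 / (L i + ε)) (fun j _ => ?_) (Finset.mem_univ i)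
      have := h0 j
      positivity

lemma frobAM (A : Matrix m r K) {ε : ℝ} (hε : 0 < ε) :
    frob2 (A * M A ε) = tr A ε - ε * frob2 (M A ε) := by
  rw [frob2_eq, frob2_eq, Matrix.conjTranspose_mul, M_herm A hε]
  have : M A ε * Aᴴ * (A * M A ε) = M A ε - (ε : K) • (M A ε * M A ε) := by
    calc M A ε * Aᴴ * (A * M A ε) = M A ε * (Aᴴ * A) * M A ε := by simp only [Matrix.mul_assoc]
      _ = _ := by rw [M_gram A hε, sub_mul, one_mul, Matrix.smul_mul]
  rw [this, Matrix.trace_sub, Matrix.trace_smul, map_sub, smul_eq_mul, RCLike.re_ofReal_mul]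
  rfl

lemma traceAMA (A : Matrix m r K) {ε : ℝ} (hε : 0 < ε) :
    RCLike.re (A * M A ε * Aᴴ).trace = Fintype.card r - ε * tr A ε := by
  rw [Matrix.mul_assoc, Matrix.trace_mul_comm, Matrix.mul_assoc, M_gram A hε, Matrix.trace_sub,
    Matrix.trace_smul, Matrix.trace_one, map_sub, smul_eq_mul, RCLike.re_ofReal_mul]
  simp [tr]

lemma traceAAM (A : Matrix m r K) {ε : ℝ} (hε : 0 < ε) :
    RCLike.re (Aᴴ * (A * M A ε)).trace = Fintype.card r - ε * tr A ε := by
  rw [← Matrix.mul_assoc, gram_M A hε, Matrix.trace_sub,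
    Matrix.trace_smul, Matrix.trace_one, map_sub, smul_eq_mul, RCLike.re_ofReal_mul]
  simp [tr]

end Pool.Agent.V11124.SK
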