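import Pool.Agent.V11124.SK.Gauss
import Pool.Agent.V11124.SK.Mat

open Matrix MeasureTheory ProbabilityTheory Filter Topology Module
open scoped ComplexOrder RealInnerProductSpace ENNReal

namespace Pool.Agent.V11124.SK

set_option linter.all false

section alg
variable {K : Type*} [RCLike K] {m r : Type*} [Fintype m] [Fintype r] [DecidableEq m]
  [DecidableEq r]

omit [DecidableEq m] in
lemma continuous_M {ε : ℝ} (hε : 0 < ε) : Continuous (fun A : Matrix m r K => M A ε) := by
  have h : ∀ A : Matrix m r K, M A ε = (S A ε).det⁻¹ • (S A ε).adjugate := by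
    intro A; unfold M; rw [Matrix.inv_def, Ring.inverse_eq_inv']
  simp_rw [h]
  have hS : Continuous (fun A : Matrix m r K => S A ε) := by unfold S; fun_prop
  exact (hS.matrix_det.inv₀ (fun A => (S_posDef A hε).det_pos.ne')).smul hS.matrix_adjugate

omit [DecidableEq m] in
lemma S_add (A H : Matrix m r K) (s ε : ℝ) :
    S (A + (s : K) • H) ε = S A ε + (s : K) • (Hᴴ * A + Aᴴ * H + (s : K) • (Hᴴ * H)) := by
  unfold S
  have : star (s : K) = s := RCLike.conj_ofReal s
  rw [conjTranspose_add, conjTranspose_smul, this]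
  simp only [Matrix.add_mul, Matrix.mul_add, Matrix.smul_mul, Matrix.mul_smul, smul_add]
  abel

omit [DecidableEq m] in
lemma M_add (A H : Matrix m r K) (s : ℝ) {ε : ℝ} (hε : 0 < ε) :
    M (A + (s : K) • H) ε = M A ε - (s : K) • (M (A + (s : K) • H) ε *
      (Hᴴ * A + Aᴴ * H + (s : K) • (Hᴴ * H)) * M A ε) := by
  have h1 := M_mul_S (A + (s : K) • H) hε
  have h2 := S_mul_M A hε
  have h3 : M (A + (s : K) • H) ε * S (A + (s : K) • H) ε * M A ε = M A ε := by
    rw [h1, one_mul]
  rw [S_add A H s ε, mul_add, add_mul, Matrix.mul_assoc, h2, mul_one, Matrix.mul_smul,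
    Matrix.smul_mul] at h3
  rw [eq_sub_iff_add_eq]
  exact h3

omit [DecidableEq m] in
lemma F_add (A H : Matrix m r K) (s : ℝ) {ε : ℝ} (hε : 0 < ε) :
    (A + (s : K) • H) * M (A + (s : K) • H) ε - A * M A ε =
      (s : K) • (H * M (A + (s : K) • H) ε - A * (M (A + (s : K) • H) ε *
      (Hᴴ * A + Aᴴ * H + (s : K) • (Hᴴ * H)) * M A ε)) := by
  have h := M_add A H s hε
  have h' : A * M (A + (s : K) • H) ε = A * M A ε - (s : K) • (A * (M (A + (s : K) • H) ε *
      (Hᴴ * A + Aᴴ * H + (s : K) • (Hᴴ * H)) * M A ε)) := by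
    conv_lhs => rw [h]
    rw [Matrix.mul_sub, Matrix.mul_smul]
  rw [Matrix.add_mul, Matrix.smul_mul, h', smul_sub]
  abel

omit [DecidableEq m] in
lemma hasDeriv_F (A H : Matrix m r K) (i : m) (j : r) {ε : ℝ} (hε : 0 < ε) :
    HasDerivAt (fun s : ℝ => ((A + (s : K) • H) * M (A + (s : K) • H) ε) i j)
      ((H * M A ε - A * (M A ε * (Hᴴ * A + Aᴴ * H) * M A ε)) i j) 0 := by
  rw [hasDerivAt_iff_tendsto_slope_zero]
  have hc : Continuous (fun s : ℝ => (H * M (A + (s : K) • H) ε - A * (M (A + (s : K) • H) ε *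
      (Hᴴ * A + Aᴴ * H + (s : K) • (Hᴴ * H)) * M A ε)) i j) := by
    have h1 : Continuous (fun s : ℝ => A + (s : K) • H) := by fun_prop
    have h2 : Continuous (fun s : ℝ => M (A + (s : K) • H) ε) := (continuous_M hε).comp h1
    refine Continuous.matrix_elem ?_ i j
    fun_prop
  have h0 := hc.tendsto 0
  have e0 : (H * M (A + ((0 : ℝ) : K) • H) ε - A * (M (A + ((0 : ℝ) : K) • H) ε *
      (Hᴴ * A + Aᴴ * H + ((0 : ℝ) : K) • (Hᴴ * H)) * M A ε)) =
      H * M A ε - A * (M A ε * (Hᴴ * A + Aᴴ * H) * M A ε) := by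
    simp
  rw [e0] at h0
  refine (h0.mono_left nhdsWithin_le_nhds).congr' ?_
  filter_upwards [self_mem_nhdsWithin] with s hs
  have hs' : s ≠ 0 := hs
  have h := congrArg (fun X : Matrix m r K => X i j) (F_add A H s hε)
  simp only [Matrix.sub_apply, Matrix.smul_apply, smul_eq_mul] at h
  have e1 : (A + ((0 : ℝ) : K) • H) = A := by simp
  simp only [zero_add, e1]
  rw [h, RCLike.real_smul_eq_coe_mul, ← mul_assoc, ← RCLike.ofReal_mul, inv_mul_cancel₀ hs',
    RCLike.ofReal_one, one_mul, Matrix.sub_apply]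

/-- the directional derivative in the direction of a matrix unit -/
lemma unit_dir (A : Matrix m r K) (N : Matrix r r K) (i : m) (j : r) (e : K) :
    (Matrix.single i j e * N - A * (N * ((Matrix.single i j e)ᴴ * A + Aᴴ * Matrix.single i j e) * N)) i j
      = e * N j j - (A * N) i j * star e * (A * N) i j - (A * N * Aᴴ) i i * e * N j j := by
  have h1 : (Matrix.single i j e * N) i j = e * N j j := by simp
  have h2 : A * (N * ((Matrix.single i j e)ᴴ * A + Aᴴ * Matrix.single i j e) * N) =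
      (A * N) * (Matrix.single i j e)ᴴ * (A * N) + (A * N * Aᴴ) * Matrix.single i j e * N := by
    simp only [Matrix.mul_add, Matrix.add_mul, Matrix.mul_assoc]
  have h3 : ((A * N) * (Matrix.single i j e)ᴴ * (A * N)) i j = (A * N) i j * star e * (A * N) i j := by
    rw [conjTranspose_single, Matrix.mul_apply, Finset.sum_eq_single i]
    · simp
    · intro b _ hb
      simp [hb]
    · simp
  have h4 : ((A * N * Aᴴ) * Matrix.single i j e * N) i j = (A * N * Aᴴ) i i * e * N j j := by
    rw [Matrix.mul_apply, Finset.sum_eq_single j]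
    · simp
    · intro b _ hb
      simp [hb]
    · simp
  rw [Matrix.sub_apply, h2, Matrix.add_apply, h1, h3, h4]
  ring

lemma im_zero_of_nonneg {z : K} (hz : 0 ≤ z) : ((RCLike.re z : ℝ) : K) = z := by
  rw [RCLike.nonneg_iff] at hz
  apply RCLike.ext
  · simp
  · simp [hz.2]

omit [DecidableEq m] in
lemma M_diag (A : Matrix m r K) {ε : ℝ} (hε : 0 < ε) (j : r) :
    ((RCLike.re (M A ε j j) : ℝ) : K) = M A ε j j ∧ 0 ≤ RCLike.re (M A ε j j) ∧
      RCLike.re (M A ε j j) ≤ tr A ε := by
  have h : ∀ j, 0 ≤ M A ε j j := fun j => (M_posDef A hε).posSemidef.diag_nonneg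
  have h' : ∀ j, 0 ≤ RCLike.re (M A ε j j) := fun j => (RCLike.nonneg_iff.1 (h j)).1
  refine ⟨im_zero_of_nonneg (h j), h' j, ?_⟩
  unfold tr
  rw [Matrix.trace, map_sum]
  exact Finset.single_le_sum (f := fun j => RCLike.re (M A ε j j)) (fun j _ => h' j)
    (Finset.mem_univ j)

omit [DecidableEq m] in
lemma AMA_diag (A : Matrix m r K) {ε : ℝ} (hε : 0 < ε) (i : m) :
    ((RCLike.re ((A * M A ε * Aᴴ) i i) : ℝ) : K) = (A * M A ε * Aᴴ) i i ∧
      0 ≤ RCLike.re ((A * M A ε * Aᴴ) i i) ∧
      RCLike.re ((A * M A ε * Aᴴ) i i) ≤ Fintype.card r := by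
  have hp := (M_posDef A hε).posSemidef.mul_mul_conjTranspose_same A
  have h : ∀ i, 0 ≤ (A * M A ε * Aᴴ) i i := fun i => hp.diag_nonneg
  have h' : ∀ i, 0 ≤ RCLike.re ((A * M A ε * Aᴴ) i i) := fun i => (RCLike.nonneg_iff.1 (h i)).1
  refine ⟨im_zero_of_nonneg (h i), h' i, ?_⟩
  calc RCLike.re ((A * M A ε * Aᴴ) i i) ≤ ∑ i, RCLike.re ((A * M A ε * Aᴴ) i i) :=
        Finset.single_le_sum (f := fun i => RCLike.re ((A * M A ε * Aᴴ) i i)) (fun j _ => h' j)
          (Finset.mem_univ i)
    _ = RCLike.re (A * M A ε * Aᴴ).trace := by rw [Matrix.trace, map_sum]; rfl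
    _ = Fintype.card r - ε * tr A ε := traceAMA A hε
    _ ≤ _ := by have := tr_nonneg A hε; nlinarith

omit [DecidableEq m] in
lemma AM_entry (A : Matrix m r K) {ε : ℝ} (hε : 0 < ε) (i : m) (j : r) :
    ‖(A * M A ε) i j‖ ^ 2 ≤ tr A ε := by
  have h1 : ‖(A * M A ε) i j‖ ^ 2 ≤ frob2 (A * M A ε) := by
    unfold frob2
    calc ‖(A * M A ε) i j‖ ^ 2 ≤ ∑ j, ‖(A * M A ε) i j‖ ^ 2 :=
          Finset.single_le_sum (f := fun j => ‖(A * M A ε) i j‖ ^ 2) (fun j _ => sq_nonneg _)
            (Finset.mem_univ j)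
      _ ≤ _ := Finset.single_le_sum (f := fun i => ∑ j, ‖(A * M A ε) i j‖ ^ 2)
          (fun j _ => Finset.sum_nonneg fun _ _ => sq_nonneg _) (Finset.mem_univ i)
  rw [frobAM A hε] at h1
  have := frob2_nonneg (M A ε)
  nlinarith

/-- matrix with the entries of a vector -/
def toM {K : Type*} {m r : Type*} (w : m × r → K) : Matrix m r K := Matrix.of fun i j => w (i, j)

omit [DecidableEq r] [Fintype m] [Fintype r] [DecidableEq m] in
lemma continuous_toM : Continuous (toM : (m × r → K) → Matrix m r K) := by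
  unfold toM
  refine continuous_matrix fun i j => ?_
  exact continuous_apply (i, j)

omit [Fintype m] [Fintype r] in
lemma toM_add (w : m × r → K) (s : ℝ) (i : m) (j : r) (e : K) :
    toM (w + s • (Pi.single (i, j) e : m × r → K)) = toM w + (s : K) • Matrix.single i j e := by
  ext a b
  simp only [toM, Matrix.of_apply, Pi.add_apply, Pi.smul_apply, Matrix.add_apply,
    Matrix.smul_apply, smul_eq_mul, RCLike.real_smul_eq_coe_mul]
  congr 2
  by_cases h : (a, b) = (i, j)
  · obtain ⟨rfl, rfl⟩ := Prod.mk.inj h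
    simp
  · rw [Pi.single_eq_of_ne h, Matrix.single_apply]
    rw [if_neg]
    rintro ⟨rfl, rfl⟩
    exact h rfl

end alg

section stein
variable {K : Type*} [RCLike K] [MeasurableSpace K] [BorelSpace K]
  {m r : Type*} [Fintype m] [Fintype r] [DecidableEq m] [DecidableEq r]
  {J : Type*} [Fintype J]

lemma inner_K (x y : K) : ⟪x, y⟫ = RCLike.re (y * star x) := rfl

/-- Stein's identity for one entry and one direction -/
lemma stein_entry (b : OrthonormalBasis J ℝ K) {ε : ℝ} (hε : 0 < ε) (i : m) (j : r) (k : J) :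
    ∫ w, ⟪b k, w (i, j)⟫ * ⟪b k, (toM w * M (toM w) ε) i j⟫ ∂(G K (m × r)) =
    ∫ w, (RCLike.re (M (toM w) ε j j) -
      RCLike.re ((toM w * M (toM w) ε) i j ^ 2 * star (b k) ^ 2) -
      RCLike.re ((toM w * M (toM w) ε * (toM w)ᴴ) i i) * RCLike.re (M (toM w) ε j j))
        ∂(G K (m × r)) := by
  have hcM : Continuous (fun w : m × r → K => M (toM w) ε) :=
    (continuous_M hε).comp continuous_toM
  have hcT : Continuous (fun w : m × r → K => toM w) := continuous_toM
  have hb1 : b k * star (b k) = 1 := by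
    have := RCLike.mul_conj (b k)
    rw [b.norm_eq_one] at this
    simpa using this
  refine G_stein b (i, j) k (C := 1 + (Fintype.card r + 2) * (Fintype.card r / ε)) ?_ ?_ ?_ ?_ ?_
  · intro w
    have h1 := hasDeriv_F (toM w) (Matrix.single i j (b k)) i j hε
    rw [unit_dir] at h1
    have h2 : HasDerivAt (fun s : ℝ => ⟪b k, ((toM w + (s : K) • Matrix.single i j (b k)) *
        M (toM w + (s : K) • Matrix.single i j (b k)) ε) i j⟫) _ 0 :=
      (innerSL ℝ (b k)).hasFDerivAt.comp_hasDerivAt 0 h1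
    simp_rw [toM_add]
    refine h2.congr_deriv ?_
    rw [innerSL_apply_apply, inner_K]
    obtain ⟨hd, -, -⟩ := M_diag (toM w) hε j
    obtain ⟨ha, -, -⟩ := AMA_diag (toM w) hε i
    rw [← hd, ← ha]
    have : (b k * ((RCLike.re (M (toM w) ε j j) : ℝ) : K) -
        (toM w * M (toM w) ε) i j * star (b k) * (toM w * M (toM w) ε) i j -
        ((RCLike.re ((toM w * M (toM w) ε * (toM w)ᴴ) i i) : ℝ) : K) * b k *
          ((RCLike.re (M (toM w) ε j j) : ℝ) : K)) * star (b k) =
        (b k * star (b k)) * ((RCLike.re (M (toM w) ε j j) : ℝ) : K) -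
        (toM w * M (toM w) ε) i j ^ 2 * star (b k) ^ 2 -
        (b k * star (b k)) * ((RCLike.re ((toM w * M (toM w) ε * (toM w)ᴴ) i i) *
          RCLike.re (M (toM w) ε j j) : ℝ) : K) := by
      push_cast
      ring
    rw [this, hb1, one_mul, one_mul, map_sub, map_sub, RCLike.ofReal_re, RCLike.ofReal_re,
      RCLike.ofReal_re]
  · have : Continuous (fun w : m × r → K => (toM w * M (toM w) ε) i j) :=
      (hcT.matrix_mul hcM).matrix_elem i j
    fun_prop
  · have h1 : Continuous (fun w : m × r → K => (toM w * M (toM w) ε) i j) :=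
      (hcT.matrix_mul hcM).matrix_elem i j
    have h2 : Continuous (fun w : m × r → K => (toM w * M (toM w) ε * (toM w)ᴴ) i i) :=
      ((hcT.matrix_mul hcM).matrix_mul hcT.matrix_conjTranspose).matrix_elem i i
    have h3 : Continuous (fun w : m × r → K => M (toM w) ε j j) := hcM.matrix_elem j j
    have hre : Continuous (RCLike.re : K → ℝ) := RCLike.continuous_re
    exact ((hre.comp h3).sub (hre.comp ((h1.pow 2).mul continuous_const))).sub
      ((hre.comp h2).mul (hre.comp h3))
  · intro w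
    have h1 := AM_entry (toM w) hε i j
    have h2 := tr_le (toM w) hε
    have h3 := tr_nonneg (toM w) hε
    have h4 : |⟪b k, (toM w * M (toM w) ε) i j⟫| ≤ ‖(toM w * M (toM w) ε) i j‖ := by
      have := abs_real_inner_le_norm (b k) ((toM w * M (toM w) ε) i j)
      rwa [b.norm_eq_one, one_mul] at this
    have h5 : tr (toM w) ε ≤ Fintype.card r / ε := by
      rw [le_div_iff₀ hε]; linarith
    have h6 : ‖(toM w * M (toM w) ε) i j‖ ≤ 1 + ‖(toM w * M (toM w) ε) i j‖ ^ 2 := by
      nlinarith [sq_nonneg (‖(toM w * M (toM w) ε) i j‖ - 1)]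
    have h7 : (0 : ℝ) ≤ Fintype.card r := by positivity
    nlinarith [mul_nonneg h7 (div_nonneg h7 hε.le), div_nonneg h7 hε.le]
  · intro w
    have h1 := AM_entry (toM w) hε i j
    have h2 := tr_le (toM w) hε
    have h3 := tr_nonneg (toM w) hε
    obtain ⟨-, hd0, hd1⟩ := M_diag (toM w) hε j
    obtain ⟨-, ha0, ha1⟩ := AMA_diag (toM w) hε i
    have h5 : tr (toM w) ε ≤ Fintype.card r / ε := by
      rw [le_div_iff₀ hε]; linarith
    have h6 : |RCLike.re ((toM w * M (toM w) ε) i j ^ 2 * star (b k) ^ 2)| ≤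
        ‖(toM w * M (toM w) ε) i j‖ ^ 2 := by
      refine (RCLike.abs_re_le_norm _).trans ?_
      rw [norm_mul, norm_pow, norm_pow, norm_star, b.norm_eq_one, one_pow, mul_one]
    have h7 : (0 : ℝ) ≤ Fintype.card r := by positivity
    have h8 : RCLike.re ((toM w * M (toM w) ε * (toM w)ᴴ) i i) * RCLike.re (M (toM w) ε j j) ≤
        Fintype.card r * (Fintype.card r / ε) :=
      mul_le_mul ha1 (hd1.trans h5) hd0 h7
    have h9 := mul_nonneg ha0 hd0
    rw [abs_le] at h6 ⊢
    constructor <;> nlinarith [h6.1, h6.2]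

lemma cont_tr {ε : ℝ} (hε : 0 < ε) : Continuous (fun w : m × r → K => tr (toM w) ε) := by
  have hcM : Continuous (fun w : m × r → K => M (toM w) ε) :=
    (continuous_M hε).comp continuous_toM
  exact RCLike.continuous_re.comp hcM.matrix_trace

lemma cont_frobM {ε : ℝ} (hε : 0 < ε) :
    Continuous (fun w : m × r → K => frob2 (M (toM w) ε)) := by
  have hcM : Continuous (fun w : m × r → K => M (toM w) ε) :=
    (continuous_M hε).comp continuous_toM
  unfold frob2
  refine continuous_finsetSum _ fun i _ => continuous_finsetSum _ fun j _ => ?_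
  exact (hcM.matrix_elem i j).norm.pow 2

lemma tr_bd (A : Matrix m r K) {ε : ℝ} (hε : 0 < ε) : |tr A ε| ≤ Fintype.card r / ε := by
  rw [abs_of_nonneg (tr_nonneg A hε), le_div_iff₀ hε]
  linarith [tr_le A hε]

lemma int_tr {ε : ℝ} (hε : 0 < ε) : Integrable (fun w : m × r → K => tr (toM w) ε) (G K (m × r)) :=
  bdd_integrable (cont_tr hε).aestronglyMeasurable (fun w => tr_bd _ hε)

lemma int_tr2 {ε : ℝ} (hε : 0 < ε) :
    Integrable (fun w : m × r → K => tr (toM w) ε ^ 2) (G K (m × r)) :=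
  bdd_integrable ((cont_tr hε).pow 2).aestronglyMeasurable (C := (Fintype.card r / ε) ^ 2)
    (fun w => by
      rw [abs_pow]
      exact pow_le_pow_left₀ (abs_nonneg _) (tr_bd _ hε) 2)

lemma int_frobM {ε : ℝ} (hε : 0 < ε) :
    Integrable (fun w : m × r → K => frob2 (M (toM w) ε)) (G K (m × r)) :=
  bdd_integrable (cont_frobM hε).aestronglyMeasurable (C := (Fintype.card r / ε) ^ 2)
    (fun w => by
      rw [abs_of_nonneg (frob2_nonneg _)]
      refine (frobM_le (toM w) hε).trans ?_
      rw [← sq_abs]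
      exact pow_le_pow_left₀ (abs_nonneg _) (tr_bd _ hε) 2)

lemma int_coord (b : OrthonormalBasis J ℝ K) (q : m × r) (k : J) :
    Integrable (fun w : m × r → K => ⟪b k, w q⟫) (G K (m × r)) := by
  have h2 : Integrable (fun x : K => ⟪b k, x⟫) (stdGaussian K) :=
    (IsGaussian.memLp_dual (stdGaussian K) (innerSL ℝ (b k)) 1 (by simp)).integrable le_rfl
  have h3 := (measurePreserving_eval (fun _ : m × r => stdGaussian K) q).integrable_comp_of_integrable h2
  exact h3

lemma int_one (b : OrthonormalBasis J ℝ K) {ε : ℝ} (hε : 0 < ε) (i : m) (j : r) (k : J) :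
    Integrable (fun w : m × r → K =>
      ⟪b k, w (i, j)⟫ * ⟪b k, (toM w * M (toM w) ε) i j⟫) (G K (m × r)) := by
  have hcM : Continuous (fun w : m × r → K => M (toM w) ε) :=
    (continuous_M hε).comp continuous_toM
  have hcT : Continuous (fun w : m × r → K => toM w) := continuous_toM
  have hcF : Continuous (fun w : m × r → K => (toM w * M (toM w) ε) i j) :=
    (hcT.matrix_mul hcM).matrix_elem i j
  have hcG : Continuous (fun w : m × r → K => ⟪b k, (toM w * M (toM w) ε) i j⟫) := by fun_prop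
  have h3 := (int_coord (m := m) (r := r) b (i, j) k).bdd_mul (c := 1 + Fintype.card r / ε)
    (f := fun w : m × r → K => ⟪b k, (toM w * M (toM w) ε) i j⟫)
    hcG.aestronglyMeasurable (ae_of_all _ fun w => by
      have h1 := AM_entry (toM w) hε i j
      have h4 : |⟪b k, (toM w * M (toM w) ε) i j⟫| ≤ ‖(toM w * M (toM w) ε) i j‖ := by
        have := abs_real_inner_le_norm (b k) ((toM w * M (toM w) ε) i j)
        rwa [b.norm_eq_one, one_mul] at this
      have h5 := (le_abs_self _).trans (tr_bd (toM w) hε)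
      have h6 : ‖(toM w * M (toM w) ε) i j‖ ≤ 1 + ‖(toM w * M (toM w) ε) i j‖ ^ 2 := by
        nlinarith [sq_nonneg (‖(toM w * M (toM w) ε) i j‖ - 1)]
      rw [Real.norm_eq_abs]
      linarith)
  exact h3.congr (ae_of_all _ fun w => mul_comm _ _)

lemma int_two (b : OrthonormalBasis J ℝ K) {ε : ℝ} (hε : 0 < ε) (i : m) (j : r) (k : J) :
    Integrable (fun w : m × r → K =>
      (RCLike.re (M (toM w) ε j j) -
      RCLike.re ((toM w * M (toM w) ε) i j ^ 2 * star (b k) ^ 2) -
      RCLike.re ((toM w * M (toM w) ε * (toM w)ᴴ) i i) * RCLike.re (M (toM w) ε j j)))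
      (G K (m × r)) := by
  have hcM : Continuous (fun w : m × r → K => M (toM w) ε) :=
    (continuous_M hε).comp continuous_toM
  have hcT : Continuous (fun w : m × r → K => toM w) := continuous_toM
  have hre : Continuous (RCLike.re : K → ℝ) := RCLike.continuous_re
  refine bdd_integrable (C := (Fintype.card r + 2) * (Fintype.card r / ε)) ?_ ?_
  · have h1 : Continuous (fun w : m × r → K => (toM w * M (toM w) ε) i j) :=
      (hcT.matrix_mul hcM).matrix_elem i j
    have h2 : Continuous (fun w : m × r → K => (toM w * M (toM w) ε * (toM w)ᴴ) i i) :=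
      ((hcT.matrix_mul hcM).matrix_mul hcT.matrix_conjTranspose).matrix_elem i i
    have h3 : Continuous (fun w : m × r → K => M (toM w) ε j j) := hcM.matrix_elem j j
    exact (((hre.comp h3).sub (hre.comp ((h1.pow 2).mul continuous_const))).sub
      ((hre.comp h2).mul (hre.comp h3))).aestronglyMeasurable
  · intro w
    have h1 := AM_entry (toM w) hε i j
    have h3 := tr_nonneg (toM w) hε
    obtain ⟨-, hd0, hd1⟩ := M_diag (toM w) hε j
    obtain ⟨-, ha0, ha1⟩ := AMA_diag (toM w) hε i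
    have h5 := (le_abs_self _).trans (tr_bd (toM w) hε)
    have h6 : |RCLike.re ((toM w * M (toM w) ε) i j ^ 2 * star (b k) ^ 2)| ≤
        ‖(toM w * M (toM w) ε) i j‖ ^ 2 := by
      refine (RCLike.abs_re_le_norm _).trans ?_
      rw [norm_mul, norm_pow, norm_pow, norm_star, b.norm_eq_one, one_pow, mul_one]
    have h7 : (0 : ℝ) ≤ Fintype.card r := by positivity
    have h8 : RCLike.re ((toM w * M (toM w) ε * (toM w)ᴴ) i i) * RCLike.re (M (toM w) ε j j) ≤
        Fintype.card r * (Fintype.card r / ε) :=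
      mul_le_mul ha1 (hd1.trans h5) hd0 h7
    have h9 := mul_nonneg ha0 hd0
    rw [abs_le] at h6 ⊢
    constructor <;> nlinarith [h6.1, h6.2]

/-- Stein's identity summed over all entries -/
theorem stein_id (b : OrthonormalBasis J ℝ K) {δ : ℝ}
    (hδ : ∀ z : K, ∑ k, RCLike.re (z ^ 2 * star (b k) ^ 2) = δ * ‖z‖ ^ 2) {ε : ℝ} (hε : 0 < ε) :
    ∫ w : m × r → K, ((Fintype.card r : ℝ) - ε * tr (toM w) ε) ∂(G K (m × r)) =
    ∫ w : m × r → K, ((Fintype.card J : ℝ) * Fintype.card m * tr (toM w) ε -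
      δ * (tr (toM w) ε - ε * frob2 (M (toM w) ε)) -
      Fintype.card J * ((Fintype.card r - ε * tr (toM w) ε) * tr (toM w) ε)) ∂(G K (m × r)) := by
  have hcM : Continuous (fun w : m × r → K => M (toM w) ε) :=
    (continuous_M hε).comp continuous_toM
  have hcT : Continuous (fun w : m × r → K => toM w) := continuous_toM
  have hre : Continuous (RCLike.re : K → ℝ) := RCLike.continuous_re
  have e1 : ∀ w : m × r → K, (Fintype.card r : ℝ) - ε * tr (toM w) ε =
      ∑ i : m, ∑ j : r, ∑ k : J, ⟪b k, w (i, j)⟫ * ⟪b k, (toM w * M (toM w) ε) i j⟫ := by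
    intro w
    rw [← traceAAM (toM w) hε, Matrix.trace, map_sum, Finset.sum_comm]
    refine Finset.sum_congr rfl fun j _ => ?_
    rw [Matrix.diag_apply, Matrix.mul_apply, map_sum]
    refine Finset.sum_congr rfl fun i _ => ?_
    have := OrthonormalBasis.sum_inner_mul_inner b (w (i, j)) ((toM w * M (toM w) ε) i j)
    have h2 : ∑ k : J, ⟪b k, w (i, j)⟫ * ⟪b k, (toM w * M (toM w) ε) i j⟫ =
        ⟪w (i, j), (toM w * M (toM w) ε) i j⟫ := by
      rw [← this]
      refine Finset.sum_congr rfl fun k _ => ?_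
      rw [real_inner_comm (b k) (w (i, j))]
    rw [h2, inner_K, Matrix.conjTranspose_apply, mul_comm]
    rfl
  have e2 : ∀ w : m × r → K, ((Fintype.card J : ℝ) * Fintype.card m * tr (toM w) ε -
      δ * (tr (toM w) ε - ε * frob2 (M (toM w) ε)) -
      Fintype.card J * ((Fintype.card r - ε * tr (toM w) ε) * tr (toM w) ε)) =
      ∑ i : m, ∑ j : r, ∑ k : J, (RCLike.re (M (toM w) ε j j) -
      RCLike.re ((toM w * M (toM w) ε) i j ^ 2 * star (b k) ^ 2) -
      RCLike.re ((toM w * M (toM w) ε * (toM w)ᴴ) i i) * RCLike.re (M (toM w) ε j j)) := by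
    intro w
    have ht : tr (toM w) ε = ∑ j, RCLike.re (M (toM w) ε j j) := by
      unfold tr; rw [Matrix.trace, map_sum]; rfl
    have ha : (Fintype.card r : ℝ) - ε * tr (toM w) ε =
        ∑ i, RCLike.re ((toM w * M (toM w) ε * (toM w)ᴴ) i i) := by
      rw [← traceAMA (toM w) hε, Matrix.trace, map_sum]; rfl
    simp only [Finset.sum_sub_distrib, hδ]
    rw [← frobAM (toM w) hε, ha]
    have h3 : ∑ i : m, ∑ j : r, ∑ _k : J, RCLike.re (M (toM w) ε j j) =
        (Fintype.card J : ℝ) * Fintype.card m * tr (toM w) ε := by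
      simp only [Finset.sum_const, Finset.card_univ, nsmul_eq_mul, ← Finset.mul_sum]
      rw [← ht]; ring
    have h4 : ∑ i : m, ∑ j : r, δ * ‖(toM w * M (toM w) ε) i j‖ ^ 2 =
        δ * frob2 (toM w * M (toM w) ε) := by
      simp only [← Finset.mul_sum]; rfl
    have h5 : ∑ i : m, ∑ j : r, ∑ _k : J,
        RCLike.re ((toM w * M (toM w) ε * (toM w)ᴴ) i i) * RCLike.re (M (toM w) ε j j) =
        Fintype.card J * ((∑ i, RCLike.re ((toM w * M (toM w) ε * (toM w)ᴴ) i i)) *
          tr (toM w) ε) := by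
      simp only [Finset.sum_const, Finset.card_univ, nsmul_eq_mul, ← Finset.mul_sum]
      rw [← ht, ← Finset.sum_mul]
    rw [h3, h4, h5]
  refine (integral_congr_ae (ae_of_all _ e1)).trans
    (Eq.trans ?_ (integral_congr_ae (ae_of_all _ e2)).symm)
  have i1 : ∀ i : m, ∀ j : r, ∀ k : J, Integrable (fun w : m × r → K =>
      ⟪b k, w (i, j)⟫ * ⟪b k, (toM w * M (toM w) ε) i j⟫) (G K (m × r)) :=
    fun i j k => int_one b hε i j k
  have i2 : ∀ i : m, ∀ j : r, ∀ k : J, Integrable (fun w : m × r → K =>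
      (RCLike.re (M (toM w) ε j j) -
      RCLike.re ((toM w * M (toM w) ε) i j ^ 2 * star (b k) ^ 2) -
      RCLike.re ((toM w * M (toM w) ε * (toM w)ᴴ) i i) * RCLike.re (M (toM w) ε j j)))
      (G K (m × r)) := fun i j k => int_two b hε i j k
  rw [integral_finsetSum _ (fun i _ => integrable_finsetSum _ fun j _ =>
      integrable_finsetSum _ fun k _ => i1 i j k),
    integral_finsetSum _ (fun i _ => integrable_finsetSum _ fun j _ =>
      integrable_finsetSum _ fun k _ => i2 i j k)]
  refine Finset.sum_congr rfl fun i _ => ?_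
  rw [integral_finsetSum _ (fun j _ => integrable_finsetSum _ fun k _ => i1 i j k),
    integral_finsetSum _ (fun j _ => integrable_finsetSum _ fun k _ => i2 i j k)]
  refine Finset.sum_congr rfl fun j _ => ?_
  rw [integral_finsetSum _ (fun k _ => i1 i j k), integral_finsetSum _ (fun k _ => i2 i j k)]
  refine Finset.sum_congr rfl fun k _ => ?_
  exact stein_entry b hε i j k

end stein

end Pool.Agent.V11124.SK
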