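import Pool.Agent.V11124.SK.Stein

open MeasureTheory ProbabilityTheory Measure WithLp Module
open scoped ENNReal NNReal RealInnerProductSpace

namespace Pool.Agent.V11124.SK

section E
variable {E : Type*} [NormedAddCommGroup E] [InnerProductSpace ℝ E] [FiniteDimensional ℝ E]
  [MeasurableSpace E] [BorelSpace E]

lemma E_second (u : E) : ∫⁻ x, ENNReal.ofReal (⟪u, x⟫ ^ 2) ∂(stdGaussian E) =
    ENNReal.ofReal (‖u‖ ^ 2) := by
  have h1 := variance_dual_stdGaussian (E := E) (innerSL ℝ u)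
  have h0 : (stdGaussian E)[(innerSL ℝ u : E → ℝ)] = 0 :=
    integral_strongDual_stdGaussian (innerSL ℝ u)
  have hm : MemLp (innerSL ℝ u : E → ℝ) 2 (stdGaussian E) :=
    IsGaussian.memLp_dual _ _ _ (by simp)
  rw [variance_of_integral_eq_zero hm.aemeasurable h0] at h1
  rw [innerSL_apply_norm] at h1
  rw [← h1, ofReal_integral_eq_lintegral_ofReal]
  · simp
  · exact hm.integrable_sq
  · exact ae_of_all _ fun x => sq_nonneg _

lemma E_null {u : E} (hu : u ≠ 0) : ∀ᵐ x ∂(stdGaussian E), ⟪u, x⟫ ≠ 0 := by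
  have h1 := IsGaussian.map_eq_gaussianReal (μ := stdGaussian E) (innerSL ℝ u)
  have hv : (Var[(innerSL ℝ u : E → ℝ); stdGaussian E]).toNNReal ≠ 0 := by
    rw [variance_dual_stdGaussian (E := E) (innerSL ℝ u), innerSL_apply_norm]
    simp [hu]
  have h2 := nullSingletonClass_gaussianReal (μ := (stdGaussian E)[(innerSL ℝ u : E → ℝ)]) hv
  rw [← h1] at h2
  have h3 : (stdGaussian E).map (innerSL ℝ u : E → ℝ) {0} = 0 := h2.measure_singleton 0
  rw [Measure.map_apply (innerSL ℝ u).measurable (MeasurableSet.singleton 0)] at h3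
  rw [ae_iff]
  simpa [Set.preimage] using h3

end E

variable (K : Type*) [RCLike K] [MeasurableSpace K] [BorelSpace K]

/-- the standard Gaussian measure on `ι → K` -/
noncomputable def G (ι : Type*) [Fintype ι] : Measure (ι → K) :=
  Measure.pi fun _ : ι => stdGaussian K

instance (ι : Type*) [Fintype ι] : IsProbabilityMeasure (G K ι) := by
  unfold G; infer_instance

lemma map_toLp (ι : Type*) [Fintype ι] :
    (G K ι).map (toLp 2) = stdGaussian (PiLp 2 (fun _ : ι => K)) := by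
  apply Measure.ext_of_charFun (E := PiLp 2 (fun _ : ι => K))
  ext t
  unfold G
  rw [charFun_stdGaussian, charFun_pi]
  simp_rw [charFun_stdGaussian, ← Complex.exp_sum]
  congr 1
  have h : ‖t‖ ^ 2 = ∑ i, ‖t i‖ ^ 2 := PiLp.norm_sq_eq_of_L2 _ t
  have h' : ((‖t‖ : ℂ)) ^ 2 = ∑ i, ((‖t i‖ : ℂ)) ^ 2 := by exact_mod_cast congrArg Complex.ofReal h
  rw [h', ← Finset.sum_div, Finset.sum_neg_distrib]

lemma map_ofLp (ι : Type*) [Fintype ι] :
    (stdGaussian (PiLp 2 (fun _ : ι => K))).map ofLp = G K ι := by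
  rw [← map_toLp, Measure.map_map (by fun_prop) (by fun_prop)]
  exact Measure.map_id

variable {K}

/-- norm-preserving real-linear maps preserve the Gaussian measure -/
lemma G_isom {ι κ : Type*} [Fintype ι] [Fintype κ] (t : (ι → K) →ₗ[ℝ] (κ → K))
    (h : ∀ x, ∑ j, ‖t x j‖ ^ 2 = ∑ i, ‖x i‖ ^ 2) (hc : Fintype.card ι = Fintype.card κ) :
    MeasurePreserving t (G K ι) (G K κ) := by
  let T : PiLp 2 (fun _ : ι => K) →ₗᵢ[ℝ] PiLp 2 (fun _ : κ => K) :=
    { toLinearMap := (WithLp.linearEquiv 2 ℝ (κ → K)).symm.toLinearMap ∘ₗ t ∘ₗ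
        (WithLp.linearEquiv 2 ℝ (ι → K)).toLinearMap
      norm_map' := by
        intro x
        have h1 := PiLp.norm_sq_eq_of_L2 _ x
        have h2 := PiLp.norm_sq_eq_of_L2 _ ((WithLp.linearEquiv 2 ℝ (κ → K)).symm (t (ofLp x)))
        have h3 := h (ofLp x)
        have : ‖(WithLp.linearEquiv 2 ℝ (κ → K)).symm (t (ofLp x))‖ ^ 2 = ‖x‖ ^ 2 := by
          rw [h1, h2]; exact h3
        exact (sq_eq_sq₀ (norm_nonneg _) (norm_nonneg _)).1 this }
  have hfin : finrank ℝ (PiLp 2 (fun _ : ι => K)) = finrank ℝ (PiLp 2 (fun _ : κ => K)) := by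
    rw [LinearEquiv.finrank_eq (WithLp.linearEquiv 2 ℝ (ι → K)),
      LinearEquiv.finrank_eq (WithLp.linearEquiv 2 ℝ (κ → K))]
    simp [Module.finrank_pi_fintype, hc]
  let Te := T.toLinearIsometryEquiv hfin
  have ht : Continuous t := t.continuous_of_finiteDimensional
  refine ⟨ht.measurable, ?_⟩
  have e1 := stdGaussian_map Te
  have e2 : (t : (ι → K) → (κ → K)) = ofLp ∘ Te ∘ toLp 2 := by
    ext x j
    rfl
  rw [e2, ← Measure.map_map (by fun_prop) (by fun_prop), ← Measure.map_map (by fun_prop) (by fun_prop),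
    map_toLp, e1, map_ofLp]

lemma G_sum {ι κ : Type*} [Fintype ι] [Fintype κ] :
    MeasurePreserving (MeasurableEquiv.sumPiEquivProdPi (fun _ : ι ⊕ κ => K)) (G K (ι ⊕ κ))
      ((G K ι).prod (G K κ)) :=
  measurePreserving_sumPiEquivProdPi (X := fun _ : ι ⊕ κ => K) (fun _ => stdGaussian K)

lemma G_sum_symm {ι κ : Type*} [Fintype ι] [Fintype κ] :
    MeasurePreserving (MeasurableEquiv.sumPiEquivProdPi (fun _ : ι ⊕ κ => K)).symm
      ((G K ι).prod (G K κ)) (G K (ι ⊕ κ)) :=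
  measurePreserving_sumPiEquivProdPi_symm (X := fun _ : ι ⊕ κ => K) (fun _ => stdGaussian K)

lemma inner_PE {ι : Type*} [Fintype ι] (c : ι → K) (e : K) (w : PiLp 2 (fun _ : ι => K)) :
    ⟪(toLp 2 (fun i => e * (starRingEnd K) (c i)) : PiLp 2 (fun _ : ι => K)), w⟫ =
      ⟪e, ∑ i, c i * w i⟫ := by
  rw [PiLp.inner_apply, inner_sum]
  refine Finset.sum_congr rfl fun i _ => ?_
  show RCLike.re (_ * _) = RCLike.re (_ * _)
  congr 1
  simp only [star_mul', starRingEnd_apply, star_star]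
  ring

lemma G_second {ι : Type*} [Fintype ι] (c : ι → K) :
    ∫⁻ w, ENNReal.ofReal (‖∑ i, c i * w i‖ ^ 2) ∂(G K ι) =
      ENNReal.ofReal (finrank ℝ K * ∑ i, ‖c i‖ ^ 2) := by
  have hm : Measurable (fun w : ι → K => ENNReal.ofReal (‖∑ i, c i * w i‖ ^ 2)) := by fun_prop
  rw [← map_ofLp, lintegral_map hm (by fun_prop)]
  set b := stdOrthonormalBasis ℝ K
  have h1 : ∀ w : PiLp 2 (fun _ : ι => K), ENNReal.ofReal (‖∑ i, c i * w i‖ ^ 2) =
      ∑ k, ENNReal.ofReal
        (⟪(toLp 2 (fun i => b k * (starRingEnd K) (c i)) : PiLp 2 (fun _ : ι => K)), w⟫ ^ 2) := by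
    intro w
    rw [← ENNReal.ofReal_sum_of_nonneg (fun _ _ => sq_nonneg _)]
    congr 1
    rw [← b.sum_sq_inner_right]
    refine Finset.sum_congr rfl fun k _ => ?_
    rw [inner_PE]
  simp_rw [h1]
  rw [lintegral_finsetSum _ (fun k _ => by fun_prop)]
  simp_rw [E_second]
  have h2 : ∀ k, ‖(toLp 2 (fun i => b k * (starRingEnd K) (c i)) : PiLp 2 (fun _ : ι => K))‖ ^ 2 =
      ∑ i, ‖c i‖ ^ 2 := by
    intro k
    rw [PiLp.norm_sq_eq_of_L2]
    simp
  simp_rw [h2]
  simp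

lemma G_null {ι : Type*} [Fintype ι] {c : ι → K} (hc : c ≠ 0) :
    ∀ᵐ w ∂(G K ι), ∑ i, c i * w i ≠ 0 := by
  have h0 : (toLp 2 (fun i => (1 : K) * (starRingEnd K) (c i)) : PiLp 2 (fun _ : ι => K)) ≠ 0 := by
    intro h
    apply hc
    ext i
    have := congrArg (fun f : PiLp 2 (fun _ : ι => K) => f i) h
    simpa using this
  have h1 := E_null h0
  rw [← map_ofLp]
  rw [ae_map_iff (by fun_prop)]
  · filter_upwards [h1] with x hx h
    apply hx
    rw [inner_PE, h, inner_zero_right]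
  · have hm : Measurable (fun w : ι → K => ∑ i, c i * w i) := by fun_prop
    exact (hm (MeasurableSet.singleton (0 : K))).compl

/-- Stein's identity, coordinate `i`, direction `b k` of `K` -/
lemma G_stein {ι : Type*} [Fintype ι] [DecidableEq ι] {J : Type*} [Fintype J]
    (b : OrthonormalBasis J ℝ K) (i : ι) (k : J) {φ φ' : (ι → K) → ℝ} {C : ℝ}
    (hφ : ∀ w, HasDerivAt (fun s : ℝ => φ (w + s • (Pi.single i (b k) : ι → K))) (φ' w) 0)
    (hc : Continuous φ) (hc' : Continuous φ') (hb : ∀ x, |φ x| ≤ C) (hb' : ∀ x, |φ' x| ≤ C) :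
    ∫ w, ⟪b k, w i⟫ * φ w ∂(G K ι) = ∫ w, φ' w ∂(G K ι) := by
  classical
  rw [← map_ofLp, integral_map (by fun_prop) (by fun_prop), integral_map (by fun_prop)
    (by fun_prop)]
  let B := Pi.orthonormalBasis (fun _ : ι => b)
  have hB : B ⟨i, k⟩ = PiLp.single 2 i (b k) := Pi.orthonormalBasis_apply (fun _ : ι => b) ⟨i, k⟩
  have h1 : ∀ x : PiLp 2 (fun _ : ι => K), ⟪b k, x i⟫ = ⟪B ⟨i, k⟩, x⟫ := by
    intro x
    rw [hB, PiLp.inner_apply, Finset.sum_eq_single i]
    · simp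
    · intro j _ hj
      simp [hj]
    · simp
  simp_rw [h1]
  refine stein_E B ⟨i, k⟩ (C := C) (φ := fun x => φ (ofLp x)) (φ' := fun x => φ' (ofLp x)) ?_
    (by fun_prop) (by fun_prop) (fun _ => hb _) (fun _ => hb' _)
  intro x
  have := hφ (ofLp x)
  have e : (fun s : ℝ => φ (ofLp (x + s • B ⟨i, k⟩))) =
      fun s : ℝ => φ (ofLp x + s • (Pi.single i (b k) : ι → K)) := by
    ext s
    rw [hB]
    congr 1
  rw [e]
  exact this

end Pool.Agent.V11124.SK
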