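import Pool.Agent.V11124.SK.Rot
import Pool.Agent.V11124.SK.Defs

open Matrix MeasureTheory ProbabilityTheory Filter Topology Module
open scoped ComplexOrder RealInnerProductSpace ENNReal

namespace Pool.Agent.V11124.SK

set_option linter.all false

open Stmt

section rb
variable {K : Type*} [RCLike K] [MeasurableSpace K] [BorelSpace K]
  {n l r k ρ : Type} [Fintype n] [Fintype l] [Fintype r] [Fintype k] [Fintype ρ]
  [DecidableEq n] [DecidableEq l] [DecidableEq r] [DecidableEq k] [DecidableEq ρ]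
  {J : Type*} [Fintype J]

lemma meas_mulMat {Q : Type*} [MeasurableSpace Q] (W : Matrix ρ n K) {A : Q → (n × r → K)}
    (hA : Measurable A) : Measurable (fun q => ofM (W * toM (A q))) := by
  refine measurable_pi_iff.2 fun x => ?_
  simp only [ofM, Matrix.mul_apply, toM, Matrix.of_apply]
  refine Finset.measurable_sum _ fun j _ => ?_
  exact ((measurable_pi_apply _).comp hA).const_mul _

/-- the loss of an estimator based on the sketches -/
noncomputable def loss (σ : ℝ) (W : Matrix ρ n K) (Xs : (ρ × r → K) × (ρ → K) → (r → K))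
    (q : (n × r → K) × ((r → K) × (n → K))) : ℝ :=
  nsq (toM q.1 *ᵥ (σ⁻¹ • q.2.1) + q.2.2 -
    toM q.1 *ᵥ Xs (ofM (W * toM q.1), W *ᵥ (toM q.1 *ᵥ (σ⁻¹ • q.2.1) + q.2.2)))

lemma risk_bound (b : OrthonormalBasis J ℝ K) {δ : ℝ} (hδ0 : 0 ≤ δ)
    (hδ : ∀ z : K, ∑ k, RCLike.re (z ^ 2 * star (b k) ^ 2) = δ * ‖z‖ ^ 2)
    (hD : 0 < (Fintype.card J : ℝ) * (Fintype.card l - Fintype.card r) - δ)
    (h0 : (0 : ℝ) ≤ (Fintype.card l : ℝ) - Fintype.card r)
    {U1 : Matrix n l K} {U2 : Matrix n k K}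
    (hU : ∀ a c, nsq (U1 *ᵥ a + U2 *ᵥ c) = nsq a + nsq c)
    (hcard : Fintype.card n = Fintype.card l + Fintype.card k)
    {W : Matrix ρ n K} (hW : W * U2 = 0) {σ : ℝ} (hσ : 0 < σ)
    {Xs : (ρ × r → K) × (ρ → K) → (r → K)} (hX : Measurable Xs) :
    ENNReal.ofReal (finrank ℝ K * ((Fintype.card l : ℝ) - Fintype.card r) +
      finrank ℝ K * Fintype.card k * (finrank ℝ K * T K l r (σ ^ 2) + 1)) ≤
    ∫⁻ q, ENNReal.ofReal (loss σ W Xs q) ∂((G K (n × r)).prod ((G K r).prod (G K n))) := by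
  have m1 : Measurable (fun q : (n × r → K) × ((r → K) × (n → K)) =>
      toM q.1 *ᵥ (σ⁻¹ • q.2.1) + q.2.2) :=
    (meas_mulVec (A := fun q : (n × r → K) × ((r → K) × (n → K)) => q.1) (by fun_prop)
      (by fun_prop)).add (by fun_prop)
  have m2 : Measurable (fun q : (n × r → K) × ((r → K) × (n → K)) =>
      Xs (ofM (W * toM q.1), W *ᵥ (toM q.1 *ᵥ (σ⁻¹ • q.2.1) + q.2.2))) :=
    hX.comp ((meas_mulMat W measurable_fst).prodMk (meas_mulVec_const W m1))
  have m3 : Measurable (fun q : (n × r → K) × ((r → K) × (n → K)) =>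
      ENNReal.ofReal (loss σ W Xs q)) :=
    meas_nsq (m1.sub (meas_mulVec measurable_fst m2))
  rw [← (Th_mp (r := r) hU hcard).lintegral_comp m3]
  have hXh : Measurable (fun s : (l × r → K) × (l → K) =>
      Xs (ofM ((W * U1) * toM s.1), (W * U1) *ᵥ s.2)) :=
    hX.comp ((meas_mulMat (W * U1) measurable_fst).prodMk
      (meas_mulVec_const (W * U1) measurable_snd))
  refine (core_bound (k := k) b hδ0 hδ hD h0 hσ hXh).trans (le_of_eq ?_)
  refine lintegral_congr fun q => ?_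
  congr 1
  have e1 : toM (Th U1 U2 q).1 = U1 * toM q.1 + U2 * toM q.2.2.1 := rfl
  have e2 : (Th U1 U2 q).2.1 = q.2.1.1 := rfl
  have e3 : (Th U1 U2 q).2.2 = U1 *ᵥ q.2.1.2 + U2 *ᵥ q.2.2.2 := rfl
  unfold loss
  rw [e1, e2, e3]
  set x := σ⁻¹ • q.2.1.1 with hx
  set b1 := toM q.1 *ᵥ x + q.2.1.2 with hb1
  have e4 : (U1 * toM q.1 + U2 * toM q.2.2.1) *ᵥ x + (U1 *ᵥ q.2.1.2 + U2 *ᵥ q.2.2.2) =
      U1 *ᵥ b1 + U2 *ᵥ (toM q.2.2.1 *ᵥ x + q.2.2.2) := by
    rw [hb1, Matrix.add_mulVec, mulVec_add, mulVec_add, mulVec_mulVec, mulVec_mulVec]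
    abel
  have e5 : W * (U1 * toM q.1 + U2 * toM q.2.2.1) = (W * U1) * toM q.1 := by
    rw [Matrix.mul_add, ← Matrix.mul_assoc, ← Matrix.mul_assoc, hW, Matrix.zero_mul, add_zero]
  have e6 : W *ᵥ (U1 *ᵥ b1 + U2 *ᵥ (toM q.2.2.1 *ᵥ x + q.2.2.2)) = (W * U1) *ᵥ b1 := by
    rw [mulVec_add, mulVec_mulVec, mulVec_mulVec, hW, Matrix.zero_mulVec, add_zero]
  rw [e4, e5, e6]
  set X := Xs (ofM ((W * U1) * toM q.1), (W * U1) *ᵥ b1) with hXX
  have e7 : U1 *ᵥ b1 + U2 *ᵥ (toM q.2.2.1 *ᵥ x + q.2.2.2) -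
      (U1 * toM q.1 + U2 * toM q.2.2.1) *ᵥ X =
      U1 *ᵥ (b1 - toM q.1 *ᵥ X) + U2 *ᵥ (toM q.2.2.1 *ᵥ x + q.2.2.2 - toM q.2.2.1 *ᵥ X) := by
    rw [Matrix.add_mulVec, mulVec_sub, mulVec_sub, mulVec_mulVec, mulVec_mulVec]
    abel
  rw [e7, hU]

end rb

section mats
variable {K : Type*} [RCLike K]

/-- embedding of the first `r` columns -/
def Jm (K : Type*) [RCLike K] {r d : ℕ} (h : r ≤ d) : Matrix (Fin r) (Fin d) K :=
  Matrix.of fun i j => if Fin.castLE h i = j then 1 else 0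

lemma Jm_mul {r d : ℕ} (h : r ≤ d) : Jm K h * (Jm K h)ᴴ = 1 := by
  ext i j
  rw [Matrix.mul_apply, Finset.sum_eq_single (Fin.castLE h i)]
  · by_cases hij : i = j
    · subst hij; simp [Jm]
    · rw [Matrix.one_apply_ne hij]
      have : Fin.castLE h j ≠ Fin.castLE h i := fun e => hij (Fin.castLE_injective h e).symm
      simp [Jm, this]
  · intro c _ hc
    simp [Jm, hc.symm]
  · simp

/-- a matrix with one nonzero column -/
def colp {ι : Type*} {p : ℕ} (p0 : Fin p) (v : ι → K) : Matrix ι (Fin p) K :=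
  Matrix.of fun i j => if j = p0 then v i else 0

lemma mul_colp {ι κ : Type*} [Fintype κ] {p : ℕ} (p0 : Fin p) (A : Matrix ι κ K) (v : κ → K) :
    A * colp p0 v = colp p0 (A *ᵥ v) := by
  ext i j
  by_cases h : j = p0
  · simp [colp, Matrix.mul_apply, h, Matrix.mulVec, dotProduct]
  · simp [colp, Matrix.mul_apply, h]

lemma colp_sub {ι : Type*} {p : ℕ} (p0 : Fin p) (v w : ι → K) :
    colp p0 v - colp p0 w = colp p0 (v - w) := by
  ext i j
  by_cases h : j = p0 <;> simp [colp, h]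

lemma frobSq_colp {n p : ℕ} (p0 : Fin p) (v : Fin n → K) : frobSq (colp p0 v) = nsq v := by
  unfold frobSq nsq
  refine Finset.sum_congr rfl fun i _ => ?_
  rw [Finset.sum_eq_single p0]
  · simp [colp]
  · intro c _ hc; simp [colp, hc]
  · simp

lemma nsq_le_frobSq {n p : ℕ} (p0 : Fin p) (Y : Matrix (Fin n) (Fin p) K) :
    nsq (fun i => Y i p0) ≤ frobSq Y := by
  unfold frobSq nsq
  refine Finset.sum_le_sum fun i _ => ?_
  exact Finset.single_le_sum (f := fun j => ‖Y i j‖ ^ 2) (fun _ _ => sq_nonneg _)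
    (Finset.mem_univ p0)

lemma rank_sharp {n r d : ℕ} (h : r ≤ d) {A : Matrix (Fin n) (Fin r) K}
    (hA : IsUnit (Aᴴ * A).det) : (A * Jm K h).rank = r := by
  have h1 : A.rank = r := by
    rw [← Matrix.rank_conjTranspose_mul_self]
    have := Matrix.rank_of_isUnit _ ((Matrix.isUnit_iff_isUnit_det _).2 hA)
    simpa using this
  have h2 : (A * Jm K h).rank ≤ A.rank := Matrix.rank_mul_le_left _ _
  have h3 : A.rank ≤ (A * Jm K h).rank := by
    have e : A = (A * Jm K h) * (Jm K h)ᴴ := by rw [Matrix.mul_assoc, Jm_mul, Matrix.mul_one]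
    conv_lhs => rw [e]
    exact Matrix.rank_mul_le_left _ _
  omega

lemma pinv_sharp {n r d : ℕ} (h : r ≤ d) {A : Matrix (Fin n) (Fin r) K}
    (hA : IsUnit (Aᴴ * A).det) :
    IsPinv (A * Jm K h) ((Jm K h)ᴴ * ((Aᴴ * A)⁻¹ * Aᴴ)) := by
  have e1 : (Aᴴ * A)⁻¹ * Aᴴ * A = 1 := by
    rw [Matrix.mul_assoc, Matrix.nonsing_inv_mul _ hA]
  have e2 : A * Jm K h * ((Jm K h)ᴴ * ((Aᴴ * A)⁻¹ * Aᴴ)) = A * (Aᴴ * A)⁻¹ * Aᴴ := by
    rw [Matrix.mul_assoc A, ← Matrix.mul_assoc (Jm K h), Jm_mul, Matrix.one_mul, Matrix.mul_assoc]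
  have e3 : (Jm K h)ᴴ * ((Aᴴ * A)⁻¹ * Aᴴ) * (A * Jm K h) = (Jm K h)ᴴ * Jm K h := by
    rw [Matrix.mul_assoc, ← Matrix.mul_assoc _ A, e1, Matrix.one_mul]
  constructor
  · rw [e2]
    calc A * (Aᴴ * A)⁻¹ * Aᴴ * (A * Jm K h) = A * ((Aᴴ * A)⁻¹ * Aᴴ * A) * Jm K h := by
          simp only [Matrix.mul_assoc]
      _ = _ := by rw [e1, Matrix.mul_one]
  · rw [e3, Matrix.mul_assoc, ← Matrix.mul_assoc (Jm K h), Jm_mul, Matrix.one_mul]
  · rw [e2, P_herm]
  · rw [e3, conjTranspose_mul, conjTranspose_conjTranspose]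

lemma resid_sharp {n r d p : ℕ} (h : r ≤ d) (p0 : Fin p) {A : Matrix (Fin n) (Fin r) K}
    (hA : IsUnit (Aᴴ * A).det) (x : Fin r → K) (z : Fin n → K) :
    colp p0 (A *ᵥ x + z) - A * Jm K h * ((Jm K h)ᴴ * ((Aᴴ * A)⁻¹ * Aᴴ)) * colp p0 (A *ᵥ x + z) =
      colp p0 (R A *ᵥ z) := by
  have e2 : A * Jm K h * ((Jm K h)ᴴ * ((Aᴴ * A)⁻¹ * Aᴴ)) = A * (Aᴴ * A)⁻¹ * Aᴴ := by
    rw [Matrix.mul_assoc A, ← Matrix.mul_assoc (Jm K h), Jm_mul, Matrix.one_mul, Matrix.mul_assoc]
  rw [e2, mul_colp, colp_sub]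
  congr 1
  have e3 : R A *ᵥ (A *ᵥ x + z) = R A *ᵥ z := by
    rw [mulVec_add, mulVec_mulVec, R_mul hA, Matrix.zero_mulVec, zero_add]
  rw [← e3]
  unfold R
  rw [Matrix.sub_mulVec, Matrix.one_mulVec]

end mats

section final
variable {K : Type*} [RCLike K] [MeasurableSpace K] [BorelSpace K]

lemma meas_mat {Q : Type*} [MeasurableSpace Q] {m n : Type*} {A : Q → Matrix m n K}
    (h : ∀ i j, Measurable fun q => A q i j) : Measurable A :=
  measurable_pi_iff.2 fun i => measurable_pi_iff.2 fun j => h i j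

lemma meas_entry {Q : Type*} [MeasurableSpace Q] {m n : Type*} {A : Q → Matrix m n K}
    (h : Measurable A) (i : m) (j : n) : Measurable fun q => A q i j :=
  (measurable_pi_apply j).comp ((measurable_pi_apply i).comp h)

lemma meas_mul {Q : Type*} [MeasurableSpace Q] {m n p : Type*} [Fintype n] {A : Q → Matrix m n K}
    {B : Q → Matrix n p K} (hA : Measurable A) (hB : Measurable B) :
    Measurable fun q => A q * B q := by
  refine meas_mat fun i j => ?_
  simp only [Matrix.mul_apply]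
  exact Finset.measurable_sum _ fun k _ => (meas_entry hA i k).mul (meas_entry hB k j)

lemma meas_conj {Q : Type*} [MeasurableSpace Q] {m n : Type*} {A : Q → Matrix m n K}
    (hA : Measurable A) : Measurable fun q => (A q)ᴴ := by
  refine meas_mat fun i j => ?_
  simp only [Matrix.conjTranspose_apply]
  exact continuous_star.measurable.comp (meas_entry hA j i)

lemma meas_sub {Q : Type*} [MeasurableSpace Q] {m n : Type*} {A B : Q → Matrix m n K}
    (hA : Measurable A) (hB : Measurable B) : Measurable fun q => A q - B q := by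
  refine meas_mat fun i j => ?_
  simp only [Matrix.sub_apply]
  exact (meas_entry hA i j).sub (meas_entry hB i j)

lemma meas_frobSq {Q : Type*} [MeasurableSpace Q] {m n : ℕ} {A : Q → Matrix (Fin m) (Fin n) K}
    (hA : Measurable A) : Measurable fun q => ENNReal.ofReal (frobSq (A q)) := by
  unfold frobSq
  refine ENNReal.measurable_ofReal.comp (Finset.measurable_sum _ fun i _ =>
    Finset.measurable_sum _ fun j _ => ?_)
  exact ((meas_entry hA i j).norm).pow_const 2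

lemma meas_toM {Q : Type*} [MeasurableSpace Q] {m n : Type*} {A : Q → (m × n → K)}
    (hA : Measurable A) : Measurable fun q => toM (A q) :=
  meas_mat fun i j => (measurable_pi_apply (i, j)).comp hA

lemma meas_colp {Q : Type*} [MeasurableSpace Q] {m : Type*} {p : ℕ} (p0 : Fin p) {v : Q → (m → K)}
    (hv : Measurable v) : Measurable fun q => colp p0 (v q) := by
  refine meas_mat fun i j => ?_
  by_cases h : j = p0
  · simp only [colp, Matrix.of_apply, h, if_true]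
    exact (measurable_pi_apply i).comp hv
  · simp only [colp, Matrix.of_apply, h, if_false]
    exact measurable_const

variable {l k d p r : ℕ} {J : Type*} [Fintype J] {S : Type*} [MeasurableSpace S]

/-- the hard instance -/
noncomputable def bv {n r : ℕ} (σ : ℝ) (q : (Fin n × Fin r → K) × ((Fin r → K) × (Fin n → K))) :
    Fin n → K := toM q.1 *ᵥ (σ⁻¹ • q.2.1) + q.2.2

/-- one-point error -/
noncomputable def errF {n : ℕ} (hrd : r ≤ d) (p0 : Fin p)
    (alg : Matrix (Fin n) (Fin l) K × Matrix (Fin l) (Fin d) K × Matrix (Fin l) (Fin p) K →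
      Matrix (Fin d) (Fin p) K) (σ : ℝ) (Om : Matrix (Fin n) (Fin l) K)
    (q : (Fin n × Fin r → K) × ((Fin r → K) × (Fin n → K))) : ℝ≥0∞ :=
  ENNReal.ofReal (frobSq (colp p0 (bv σ q) - toM q.1 * Jm K hrd *
    alg (Om, Omᴴ * (toM q.1 * Jm K hrd), Omᴴ * colp p0 (bv σ q))))

lemma step1 (b : OrthonormalBasis J ℝ K) {δ : ℝ} (hδ0 : 0 ≤ δ)
    (hδ : ∀ z : K, ∑ k, RCLike.re (z ^ 2 * star (b k) ^ 2) = δ * ‖z‖ ^ 2)
    (hD : 0 < (Fintype.card J : ℝ) * ((l : ℝ) - r) - δ) (h0 : (0 : ℝ) ≤ (l : ℝ) - r)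
    (hrd : r ≤ d) (p0 : Fin p)
    {alg : Matrix (Fin (l + k)) (Fin l) K × Matrix (Fin l) (Fin d) K × Matrix (Fin l) (Fin p) K →
      Matrix (Fin d) (Fin p) K} (halg : Measurable alg) {σ : ℝ} (hσ : 0 < σ)
    (Om : Matrix (Fin (l + k)) (Fin l) K) :
    ENNReal.ofReal (finrank ℝ K * ((l : ℝ) - r) +
      finrank ℝ K * k * (finrank ℝ K * T K (Fin l) (Fin r) (σ ^ 2) + 1)) ≤
    ∫⁻ q, errF hrd p0 alg σ Om q ∂((G K (Fin (l + k) × Fin r)).prod
      ((G K (Fin r)).prod (G K (Fin (l + k))))) := by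
  obtain ⟨U1, U2, hU, hW⟩ := exists_U (K := K) (l := l) (k := k) Om
  have hX : Measurable (fun t : (Fin l × Fin r → K) × (Fin l → K) => fun i : Fin r =>
      alg (Om, toM t.1 * Jm K hrd, colp p0 t.2) (Fin.castLE hrd i) p0) := by
    refine measurable_pi_iff.2 fun i => ?_
    refine meas_entry (A := fun t : (Fin l × Fin r → K) × (Fin l → K) =>
      alg (Om, toM t.1 * Jm K hrd, colp p0 t.2)) (halg.comp ?_) _ _
    exact measurable_const.prodMk ((meas_mul (meas_toM measurable_fst) measurable_const).prodMk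
      (meas_colp p0 measurable_snd))
  have h := risk_bound (n := Fin (l + k)) (l := Fin l) (r := Fin r) (k := Fin k) (ρ := Fin l)
    b hδ0 hδ (by simpa using hD) (by simpa using h0) hU (by simp) hW hσ hX
  simp only [Fintype.card_fin] at h
  refine h.trans (lintegral_mono fun q => ENNReal.ofReal_le_ofReal ?_)
  refine le_trans (le_of_eq ?_) (nsq_le_frobSq p0 _)
  unfold loss
  congr 1
  funext i
  have e1 : toM (ofM (Omᴴ * toM q.1)) * Jm K hrd = Omᴴ * (toM q.1 * Jm K hrd) := by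
    rw [toM_ofM, Matrix.mul_assoc]
  have e2 : colp p0 (Omᴴ *ᵥ (toM q.1 *ᵥ (σ⁻¹ • q.2.1) + q.2.2)) =
      Omᴴ * colp p0 (bv σ q) := by rw [mul_colp]; rfl
  simp only [e1, e2]
  set X := alg (Om, Omᴴ * (toM q.1 * Jm K hrd), Omᴴ * colp p0 (bv σ q)) with hXd
  rw [Pi.sub_apply, Matrix.sub_apply]
  congr 1
  · simp [colp, bv]
  · rw [Matrix.mul_assoc]
    simp only [Matrix.mulVec, dotProduct]
    rw [Matrix.mul_apply]
    refine Finset.sum_congr rfl fun j _ => ?_
    congr 1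
    rw [Matrix.mul_apply, Finset.sum_eq_single (Fin.castLE hrd j)]
    · simp [Jm]
    · intro c _ hc; simp [Jm, hc.symm]
    · simp

lemma R_ae {n : ℕ} {A : Matrix (Fin n) (Fin r) K} (hA : IsUnit (Aᴴ * A).det)
    (hn : (0 : ℝ) < (n : ℝ) - r) : ∀ᵐ z ∂(G K (Fin n)), R A *ᵥ z ≠ 0 := by
  have h1 := frob_R hA
  simp only [Fintype.card_fin] at h1
  have h2 : ∃ i, (fun j => R A i j) ≠ 0 := by
    by_contra hcon
    push Not at hcon
    have : frob2 (R A) = 0 := by
      unfold frob2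
      refine Finset.sum_eq_zero fun i _ => Finset.sum_eq_zero fun j _ => ?_
      have h3 : R A i j = 0 := congrFun (hcon i) j
      rw [h3]; simp
    linarith
  obtain ⟨i, hi⟩ := h2
  filter_upwards [G_null hi] with z hz h
  exact hz (congrFun h i)

lemma meas_bv {n : ℕ} (σ : ℝ) :
    Measurable (bv σ : (Fin n × Fin r → K) × ((Fin r → K) × (Fin n → K)) → (Fin n → K)) := by
  unfold bv
  exact (meas_mulVec (A := fun q : (Fin n × Fin r → K) × ((Fin r → K) × (Fin n → K)) => q.1)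
    (by fun_prop) (by fun_prop)).add (by fun_prop)

lemma meas_errF {n : ℕ} (hrd : r ≤ d) (p0 : Fin p)
    {alg : Matrix (Fin n) (Fin l) K × Matrix (Fin l) (Fin d) K × Matrix (Fin l) (Fin p) K →
      Matrix (Fin d) (Fin p) K} (halg : Measurable alg) (σ : ℝ)
    {Om : S → Matrix (Fin n) (Fin l) K} (hOm : Measurable Om) :
    Measurable (fun t : S × ((Fin n × Fin r → K) × ((Fin r → K) × (Fin n → K))) =>
      errF hrd p0 alg σ (Om t.1) t.2) := by
  unfold errF
  have mO : Measurable (fun t : S × ((Fin n × Fin r → K) × ((Fin r → K) × (Fin n → K))) =>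
      Om t.1) := hOm.comp measurable_fst
  have mA : Measurable (fun t : S × ((Fin n × Fin r → K) × ((Fin r → K) × (Fin n → K))) =>
      toM t.2.1 * Jm K hrd) := meas_mul (meas_toM (by fun_prop)) measurable_const
  have mB : Measurable (fun t : S × ((Fin n × Fin r → K) × ((Fin r → K) × (Fin n → K))) =>
      colp p0 (bv σ t.2)) := meas_colp p0 ((meas_bv σ).comp measurable_snd)
  refine meas_frobSq (meas_sub mB (meas_mul mA (halg.comp ?_)))
  exact mO.prodMk ((meas_mul (meas_conj mO) mA).prodMk (meas_mul (meas_conj mO) mB))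

lemma point_bound {n : ℕ} (hrd : r ≤ d) (p0 : Fin p)
    (alg : Matrix (Fin n) (Fin l) K × Matrix (Fin l) (Fin d) K × Matrix (Fin l) (Fin p) K →
      Matrix (Fin d) (Fin p) K) (σ : ℝ) (P : Measure S) (Om : S → Matrix (Fin n) (Fin l) K)
    (q : (Fin n × Fin r → K) × ((Fin r → K) × (Fin n → K)))
    (hA : IsUnit ((toM q.1)ᴴ * toM q.1).det) (hz : R (toM q.1) *ᵥ q.2.2 ≠ 0) :
    ∫⁻ s, errF hrd p0 alg σ (Om s) q ∂P ≤
      worst P Om alg r * ENNReal.ofReal (nsq (R (toM q.1) *ᵥ q.2.2)) := by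
  have hres := resid_sharp hrd p0 hA (σ⁻¹ • q.2.1) q.2.2
  set A := toM q.1 * Jm K hrd with hAd
  set Ap := (Jm K hrd)ᴴ * (((toM q.1)ᴴ * toM q.1)⁻¹ * (toM q.1)ᴴ) with hApd
  set B := colp p0 (bv σ q) with hBd
  have hres' : B - A * Ap * B = colp p0 (R (toM q.1) *ᵥ q.2.2) := hres
  have hpos : 0 < nsq (R (toM q.1) *ᵥ q.2.2) := by
    refine lt_of_le_of_ne (nsq_nonneg _) fun h => hz ?_
    unfold nsq at h
    have h1 := (Finset.sum_eq_zero_iff_of_nonneg (fun _ _ => sq_nonneg _)).1 h.symm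
    funext i
    have := h1 i (Finset.mem_univ i)
    simpa using this
  have hB : B ≠ A * Ap * B := by
    intro h
    have : frobSq (B - A * Ap * B) = 0 := by
      rw [sub_eq_zero.2 h]; simp [frobSq]
    rw [hres', frobSq_colp] at this
    linarith
  have h1 : errRatio P Om alg A Ap B ≤ worst P Om alg r := by
    unfold worst
    exact le_iSup_of_le A (le_iSup_of_le Ap (le_iSup_of_le B (le_iSup_of_le (rank_sharp hrd hA)
      (le_iSup_of_le (pinv_sharp hrd hA) (le_iSup_of_le hB le_rfl)))))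
  unfold errRatio at h1
  rw [hres', frobSq_colp, ENNReal.div_le_iff (by simpa using hpos) ENNReal.ofReal_ne_top] at h1
  exact h1

lemma key (b : OrthonormalBasis J ℝ K) {δ : ℝ} (hδ0 : 0 ≤ δ)
    (hδ : ∀ z : K, ∑ k, RCLike.re (z ^ 2 * star (b k) ^ 2) = δ * ‖z‖ ^ 2)
    (hD : 0 < (Fintype.card J : ℝ) * ((l : ℝ) - r) - δ) (h0 : (0 : ℝ) < (l : ℝ) - r)
    (hrd : r ≤ d) (p0 : Fin p)
    {alg : Matrix (Fin (l + k)) (Fin l) K × Matrix (Fin l) (Fin d) K × Matrix (Fin l) (Fin p) K →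
      Matrix (Fin d) (Fin p) K} (halg : Measurable alg) {σ : ℝ} (hσ : 0 < σ)
    {P : Measure S} [IsProbabilityMeasure P] {Om : S → Matrix (Fin (l + k)) (Fin l) K}
    (hOm : Measurable Om) :
    ENNReal.ofReal (finrank ℝ K * ((l : ℝ) - r) +
      finrank ℝ K * k * (finrank ℝ K * T K (Fin l) (Fin r) (σ ^ 2) + 1)) ≤
    worst P Om alg r * ENNReal.ofReal (finrank ℝ K * (((l : ℝ) + k) - r)) := by
  have hF := meas_errF hrd p0 halg σ hOm
  have hH : Measurable (fun q : (Fin (l + k) × Fin r → K) × ((Fin r → K) × (Fin (l + k) → K)) =>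
      ∫⁻ s, errF hrd p0 alg σ (Om s) q ∂P) := hF.lintegral_prod_left'
  have hDn : 0 < (Fintype.card J : ℝ) * (Fintype.card (Fin (l + k)) - Fintype.card (Fin r)) - δ := by
    have h1 : (0 : ℝ) ≤ (Fintype.card J : ℝ) * k := by positivity
    simp only [Fintype.card_fin]
    push_cast
    nlinarith
  have hn : (0 : ℝ) < ((l + k : ℕ) : ℝ) - r := by
    have : (0 : ℝ) ≤ k := by positivity
    push_cast
    linarith
  calc ENNReal.ofReal (finrank ℝ K * ((l : ℝ) - r) +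
      finrank ℝ K * k * (finrank ℝ K * T K (Fin l) (Fin r) (σ ^ 2) + 1))
      = ∫⁻ s, ENNReal.ofReal (finrank ℝ K * ((l : ℝ) - r) +
      finrank ℝ K * k * (finrank ℝ K * T K (Fin l) (Fin r) (σ ^ 2) + 1)) ∂P := by simp
    _ ≤ ∫⁻ s, ∫⁻ q, errF hrd p0 alg σ (Om s) q ∂((G K (Fin (l + k) × Fin r)).prod
      ((G K (Fin r)).prod (G K (Fin (l + k))))) ∂P :=
        lintegral_mono fun s => step1 b hδ0 hδ hD h0.le hrd p0 halg hσ (Om s)
    _ = ∫⁻ q, ∫⁻ s, errF hrd p0 alg σ (Om s) q ∂P ∂((G K (Fin (l + k) × Fin r)).prod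
      ((G K (Fin r)).prod (G K (Fin (l + k))))) :=
        lintegral_lintegral_swap hF.aemeasurable
    _ = ∫⁻ a, ∫⁻ y, ∫⁻ s, errF hrd p0 alg σ (Om s) (a, y) ∂P
        ∂((G K (Fin r)).prod (G K (Fin (l + k)))) ∂(G K (Fin (l + k) × Fin r)) :=
        lintegral_prod _ hH.aemeasurable
    _ ≤ ∫⁻ a, worst P Om alg r * ENNReal.ofReal (finrank ℝ K * (((l : ℝ) + k) - r))
        ∂(G K (Fin (l + k) × Fin r)) := by
        refine lintegral_mono_ae ?_
        filter_upwards [full_rank (m := Fin (l + k)) (r := Fin r) b hδ0 hδ hDn] with a ha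
        have hz := Measure.quasiMeasurePreserving_snd (μ := G K (Fin r))
          (ν := G K (Fin (l + k))) |>.ae (R_ae ha hn)
        have h2 := second_mat2 (ι := Fin r) (0 : Matrix (Fin (l + k)) (Fin r) K) (R (toM a))
        have h3 : frob2 (0 : Matrix (Fin (l + k)) (Fin r) K) = 0 := by simp [frob2]
        rw [h3, zero_add, frob_R ha] at h2
        have h4 : ∀ y : (Fin r → K) × (Fin (l + k) → K),
            ∑ i, ‖((0 : Matrix (Fin (l + k)) (Fin r) K) *ᵥ y.1) i + (R (toM a) *ᵥ y.2) i‖ ^ 2 =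
            nsq (R (toM a) *ᵥ y.2) := by
          intro y
          rw [Matrix.zero_mulVec]; unfold nsq; simp
        simp_rw [h4] at h2
        simp only [Fintype.card_fin] at h2
        push_cast at h2
        rw [← h2, ← lintegral_const_mul _ (meas_nsq (meas_mulVec_const (R (toM a)) measurable_snd))]
        refine lintegral_mono_ae ?_
        filter_upwards [hz] with y hy
        exact point_bound hrd p0 alg σ P Om (a, y) ha hy
    _ = _ := by simp

theorem lower_generic (b : OrthonormalBasis J ℝ K) {δ : ℝ} (hδ0 : 0 ≤ δ)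
    (hδ : ∀ z : K, ∑ k, RCLike.re (z ^ 2 * star (b k) ^ 2) = δ * ‖z‖ ^ 2)
    (hD : 0 < (Fintype.card J : ℝ) * ((l : ℝ) - r) - δ) (h0 : (0 : ℝ) < (l : ℝ) - r)
    (hrd : r ≤ d) (hp : 1 ≤ p)
    {alg : Matrix (Fin (l + k)) (Fin l) K × Matrix (Fin l) (Fin d) K × Matrix (Fin l) (Fin p) K →
      Matrix (Fin d) (Fin p) K} (halg : Measurable alg)
    {P : Measure S} [IsProbabilityMeasure P] {Om : S → Matrix (Fin (l + k)) (Fin l) K}
    (hOm : Measurable Om) :
    ENNReal.ofReal (1 + k / ((l : ℝ) + k - r) *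
      (Fintype.card J * (r / (Fintype.card J * ((l : ℝ) - r) - δ)))) ≤ worst P Om alg r := by
  have hfin : (finrank ℝ K : ℝ) = Fintype.card J := by
    rw [finrank_eq_card_basis b.toBasis]
  have hJ : (0 : ℝ) < Fintype.card J := by
    rw [← hfin]; exact_mod_cast Module.finrank_pos (R := ℝ) (M := K)
  have hk : (0 : ℝ) ≤ k := by positivity
  have hn : (0 : ℝ) < (l : ℝ) + k - r := by linarith
  set β : ℝ := ((Fintype.card J : ℕ) : ℝ) with hβ
  by_contra hcon
  rw [not_le] at hcon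
  have htop : worst P Om alg r ≠ ⊤ := (hcon.trans ENNReal.ofReal_lt_top).ne
  set w := (worst P Om alg r).toReal with hw
  have hwe : worst P Om alg r = ENNReal.ofReal w := (ENNReal.ofReal_toReal htop).symm
  have hw0 : 0 ≤ w := ENNReal.toReal_nonneg
  have hall : ∀ ε : ℝ, 0 < ε → (l : ℝ) + k - r + k * (β * T K (Fin l) (Fin r) ε) ≤
      w * ((l : ℝ) + k - r) := by
    intro ε hε
    have h1 := key (K := K) b hδ0 hδ hD h0 hrd ⟨0, hp⟩ halg (Real.sqrt_pos.2 hε) (P := P) hOm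
    rw [Real.sq_sqrt hε.le, hwe, ← ENNReal.ofReal_mul hw0, ENNReal.ofReal_le_ofReal_iff
      (by rw [hfin]; positivity), hfin] at h1
    have h2 : β * ((l : ℝ) + k - r + k * (β * T K (Fin l) (Fin r) ε)) ≤
        β * (w * ((l : ℝ) + k - r)) := by linarith
    exact le_of_mul_le_mul_left h2 hJ
  have hlt : w < 1 + k / ((l : ℝ) + k - r) * (β * (r / (β * ((l : ℝ) - r) - δ))) := by
    rw [hwe] at hcon
    exact (ENNReal.ofReal_lt_ofReal_iff_of_nonneg hw0).1 hcon
  have hlt2 : w * ((l : ℝ) + k - r) < ((l : ℝ) + k - r) + k * (β * (r / (β * ((l : ℝ) - r) - δ))) := by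
    have := mul_lt_mul_of_pos_right hlt hn
    have e : (1 + k / ((l : ℝ) + k - r) * (β * (r / (β * ((l : ℝ) - r) - δ)))) *
        ((l : ℝ) + k - r) = ((l : ℝ) + k - r) + k * (β * (r / (β * ((l : ℝ) - r) - δ))) := by
      field_simp
    rwa [e] at this
  rcases eq_or_lt_of_le hk with hk0 | hkpos
  · have h1 := hall 1 one_pos
    rw [← hk0] at h1 hlt2
    linarith
  · have hc : (w - 1) * ((l : ℝ) + k - r) / (k * β) < r / (β * ((l : ℝ) - r) - δ) := by
      rw [div_lt_iff₀ (by positivity)]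
      linarith
    obtain ⟨ε, hε, h1⟩ := T_sup (K := K) (m := Fin l) (r := Fin r) b hδ0 hδ (by simpa using hD)
      (c := (w - 1) * ((l : ℝ) + k - r) / (k * β)) (by simpa using hc)
    rw [div_lt_iff₀ (by positivity)] at h1
    have h2 := hall ε hε
    linarith

end final

end Pool.Agent.V11124.SK
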