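import Pool.Agent.V11124.SK.Bayes

open Matrix MeasureTheory ProbabilityTheory Filter Topology Module
open scoped ComplexOrder RealInnerProductSpace ENNReal

namespace Pool.Agent.V11124.SK

set_option linter.all false

variable {K : Type*} [RCLike K] [MeasurableSpace K] [BorelSpace K]
  {n l r k : Type} [Fintype n] [Fintype l] [Fintype r] [Fintype k]
  [DecidableEq n] [DecidableEq l] [DecidableEq r] [DecidableEq k]
  {J : Type*} [Fintype J]

lemma core_fixed (A : l × r → K) (hA : IsUnit ((toM A)ᴴ * toM A).det) (h0 : (0 : ℝ) ≤ (Fintype.card l : ℝ) - Fintype.card r)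
    {σ : ℝ} (hσ : 0 < σ) {Xh : (l → K) → (r → K)} (hX : Measurable Xh) :
    ENNReal.ofReal (finrank ℝ K * ((Fintype.card l : ℝ) - Fintype.card r) +
      finrank ℝ K * Fintype.card k * (finrank ℝ K * tr (toM A) (σ ^ 2) + 1)) ≤
    ∫⁻ q : ((r → K) × (l → K)) × ((k × r → K) × (k → K)), ENNReal.ofReal (
      nsq (toM A *ᵥ (σ⁻¹ • q.1.1) + q.1.2 - toM A *ᵥ Xh (toM A *ᵥ (σ⁻¹ • q.1.1) + q.1.2)) +
      nsq (toM q.2.1 *ᵥ (σ⁻¹ • q.1.1) + q.2.2 -
        toM q.2.1 *ᵥ Xh (toM A *ᵥ (σ⁻¹ • q.1.1) + q.1.2)))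
      ∂(((G K r).prod (G K l)).prod ((G K (k × r)).prod (G K k))) := by
  have hε : (0 : ℝ) < σ ^ 2 := by positivity
  have mb : Measurable (fun p : (r → K) × (l → K) => toM A *ᵥ (σ⁻¹ • p.1) + p.2) :=
    (meas_mulVec_const (toM A) (by fun_prop)).add measurable_snd
  have mX : Measurable (fun p : (r → K) × (l → K) => Xh (toM A *ᵥ (σ⁻¹ • p.1) + p.2)) :=
    hX.comp mb
  have ma : Measurable (fun p : (r → K) × (l → K) => ENNReal.ofReal (nsq
      (toM A *ᵥ (σ⁻¹ • p.1) + p.2 - toM A *ᵥ Xh (toM A *ᵥ (σ⁻¹ • p.1) + p.2)))) :=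
    meas_nsq (mb.sub (meas_mulVec_const (toM A) mX))
  have mv : Measurable (fun p : (r → K) × (l → K) => ENNReal.ofReal (nsq
      (σ⁻¹ • p.1 - Xh (toM A *ᵥ (σ⁻¹ • p.1) + p.2)))) :=
    meas_nsq ((by fun_prop : Measurable (fun p : (r → K) × (l → K) => σ⁻¹ • p.1)).sub mX)
  have mq : Measurable (fun q : ((r → K) × (l → K)) × ((k × r → K) × (k → K)) => ENNReal.ofReal (
      nsq (toM A *ᵥ (σ⁻¹ • q.1.1) + q.1.2 - toM A *ᵥ Xh (toM A *ᵥ (σ⁻¹ • q.1.1) + q.1.2)) +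
      nsq (toM q.2.1 *ᵥ (σ⁻¹ • q.1.1) + q.2.2 -
        toM q.2.1 *ᵥ Xh (toM A *ᵥ (σ⁻¹ • q.1.1) + q.1.2)))) := by
    simp_rw [ENNReal.ofReal_add (nsq_nonneg _) (nsq_nonneg _)]
    refine (ma.comp measurable_fst).add (meas_nsq ?_)
    refine Measurable.sub ((meas_mulVec (A := fun q : ((r → K) × (l → K)) ×
      ((k × r → K) × (k → K)) => q.2.1) (by fun_prop) (by fun_prop)).add (by fun_prop)) ?_
    exact meas_mulVec (A := fun q : ((r → K) × (l → K)) ×
      ((k × r → K) × (k → K)) => q.2.1) (by fun_prop) (mX.comp measurable_fst)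
  rw [lintegral_prod _ mq.aemeasurable]
  have h1 : ∀ p : (r → K) × (l → K), ∫⁻ s : (k × r → K) × (k → K), ENNReal.ofReal (
      nsq (toM A *ᵥ (σ⁻¹ • p.1) + p.2 - toM A *ᵥ Xh (toM A *ᵥ (σ⁻¹ • p.1) + p.2)) +
      nsq (toM s.1 *ᵥ (σ⁻¹ • p.1) + s.2 - toM s.1 *ᵥ Xh (toM A *ᵥ (σ⁻¹ • p.1) + p.2)))
      ∂((G K (k × r)).prod (G K k)) =
      ENNReal.ofReal (nsq (toM A *ᵥ (σ⁻¹ • p.1) + p.2 -
        toM A *ᵥ Xh (toM A *ᵥ (σ⁻¹ • p.1) + p.2))) +
      (ENNReal.ofReal (finrank ℝ K * Fintype.card k) *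
        ENNReal.ofReal (nsq (σ⁻¹ • p.1 - Xh (toM A *ᵥ (σ⁻¹ • p.1) + p.2))) +
        ENNReal.ofReal (finrank ℝ K * Fintype.card k)) := by
    intro p
    set v := σ⁻¹ • p.1 - Xh (toM A *ᵥ (σ⁻¹ • p.1) + p.2) with hv
    have h2 : ∀ s : (k × r → K) × (k → K), toM s.1 *ᵥ (σ⁻¹ • p.1) + s.2 -
        toM s.1 *ᵥ Xh (toM A *ᵥ (σ⁻¹ • p.1) + p.2) = toM s.1 *ᵥ v + s.2 := by
      intro s
      rw [hv, mulVec_sub]; abel
    simp_rw [h2, ENNReal.ofReal_add (nsq_nonneg _) (nsq_nonneg _)]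
    rw [lintegral_add_left measurable_const, lintegral_const, measure_univ, mul_one]
    congr 1
    have h3 := second_rows (k := k) v
    have h4 : ∀ s : (k × r → K) × (k → K), nsq (toM s.1 *ᵥ v + s.2) =
      ∑ i, ‖(toM s.1 *ᵥ v) i + s.2 i‖ ^ 2 := fun s => rfl
    simp_rw [h4]
    rw [h3, ← ENNReal.ofReal_mul (by positivity), ← ENNReal.ofReal_add
      (mul_nonneg (by positivity) (nsq_nonneg _)) (by positivity)]
    congr 1
    unfold nsq
    ring
  simp_rw [h1]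
  rw [lintegral_add_left ma, lintegral_add_right _ measurable_const,
    lintegral_const_mul _ mv, lintegral_const, measure_univ, mul_one]
  have hb1 := bayes_top hA σ⁻¹ Xh
  have hb2 := bayes_est (toM A) hσ hX
  have ht := tr_nonneg (toM A) hε
  calc _ = ENNReal.ofReal (finrank ℝ K * ((Fintype.card l : ℝ) - Fintype.card r)) +
        (ENNReal.ofReal (finrank ℝ K * Fintype.card k) *
          ENNReal.ofReal (finrank ℝ K * tr (toM A) (σ ^ 2)) +
          ENNReal.ofReal (finrank ℝ K * Fintype.card k)) := by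
        rw [← ENNReal.ofReal_mul (by positivity), ← ENNReal.ofReal_add (by positivity)
          (by positivity), ← ENNReal.ofReal_add (by positivity) (by positivity)]
        congr 1
        ring
    _ ≤ _ := by gcongr

lemma lint_lin {ε : ℝ} (hε : 0 < ε) {a c : ℝ} (ha : 0 ≤ a) (hc : 0 ≤ c) :
    ∫⁻ w : l × r → K, ENNReal.ofReal (a + c * tr (toM w) ε) ∂(G K (l × r)) =
      ENNReal.ofReal (a + c * T K l r ε) := by
  have hi : Integrable (fun w : l × r → K => a + c * tr (toM w) ε) (G K (l × r)) :=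
    (integrable_const a).add ((int_tr hε).const_mul c)
  rw [← ofReal_integral_eq_lintegral_ofReal hi (ae_of_all _ fun w => by
    have := tr_nonneg (toM w) hε
    show (0 : ℝ) ≤ a + c * tr (toM w) ε
    positivity)]
  congr 1
  rw [integral_add (integrable_const a) ((int_tr hε).const_mul c), integral_const_mul]
  simp [T]

lemma core_bound (b : OrthonormalBasis J ℝ K) {δ : ℝ} (hδ0 : 0 ≤ δ)
    (hδ : ∀ z : K, ∑ k, RCLike.re (z ^ 2 * star (b k) ^ 2) = δ * ‖z‖ ^ 2)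
    (hD : 0 < (Fintype.card J : ℝ) * (Fintype.card l - Fintype.card r) - δ)
    (h0 : (0 : ℝ) ≤ (Fintype.card l : ℝ) - Fintype.card r)
    {σ : ℝ} (hσ : 0 < σ) {Xh : (l × r → K) × (l → K) → (r → K)} (hX : Measurable Xh) :
    ENNReal.ofReal (finrank ℝ K * ((Fintype.card l : ℝ) - Fintype.card r) +
      finrank ℝ K * Fintype.card k * (finrank ℝ K * T K l r (σ ^ 2) + 1)) ≤
    ∫⁻ q : (l × r → K) × (((r → K) × (l → K)) × ((k × r → K) × (k → K))), ENNReal.ofReal (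
      nsq (toM q.1 *ᵥ (σ⁻¹ • q.2.1.1) + q.2.1.2 -
        toM q.1 *ᵥ Xh (q.1, toM q.1 *ᵥ (σ⁻¹ • q.2.1.1) + q.2.1.2)) +
      nsq (toM q.2.2.1 *ᵥ (σ⁻¹ • q.2.1.1) + q.2.2.2 -
        toM q.2.2.1 *ᵥ Xh (q.1, toM q.1 *ᵥ (σ⁻¹ • q.2.1.1) + q.2.1.2)))
      ∂((G K (l × r)).prod (((G K r).prod (G K l)).prod ((G K (k × r)).prod (G K k)))) := by
  have hε : (0 : ℝ) < σ ^ 2 := by positivity
  have m1 : Measurable (fun q : (l × r → K) × (((r → K) × (l → K)) × ((k × r → K) × (k → K))) =>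
      toM q.1 *ᵥ (σ⁻¹ • q.2.1.1) + q.2.1.2) :=
    (meas_mulVec (A := fun q : (l × r → K) × (((r → K) × (l → K)) × ((k × r → K) × (k → K))) =>
      q.1) (by fun_prop) (by fun_prop)).add (by fun_prop)
  have m2 : Measurable (fun q : (l × r → K) × (((r → K) × (l → K)) × ((k × r → K) × (k → K))) =>
      Xh (q.1, toM q.1 *ᵥ (σ⁻¹ • q.2.1.1) + q.2.1.2)) :=
    hX.comp (measurable_fst.prodMk m1)
  have m3 : Measurable (fun q : (l × r → K) × (((r → K) × (l → K)) × ((k × r → K) × (k → K))) =>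
      ENNReal.ofReal (
      nsq (toM q.1 *ᵥ (σ⁻¹ • q.2.1.1) + q.2.1.2 -
        toM q.1 *ᵥ Xh (q.1, toM q.1 *ᵥ (σ⁻¹ • q.2.1.1) + q.2.1.2)) +
      nsq (toM q.2.2.1 *ᵥ (σ⁻¹ • q.2.1.1) + q.2.2.2 -
        toM q.2.2.1 *ᵥ Xh (q.1, toM q.1 *ᵥ (σ⁻¹ • q.2.1.1) + q.2.1.2)))) := by
    simp_rw [ENNReal.ofReal_add (nsq_nonneg _) (nsq_nonneg _)]
    refine Measurable.add (meas_nsq ?_) (meas_nsq ?_)
    · exact m1.sub (meas_mulVec measurable_fst m2)
    · refine Measurable.sub ((meas_mulVec (A := fun q : (l × r → K) ×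
        (((r → K) × (l → K)) × ((k × r → K) × (k → K))) => q.2.2.1) (by fun_prop)
        (by fun_prop)).add (by fun_prop)) ?_
      exact meas_mulVec (A := fun q : (l × r → K) ×
        (((r → K) × (l → K)) × ((k × r → K) × (k → K))) => q.2.2.1) (by fun_prop) m2
  rw [lintegral_prod _ m3.aemeasurable]
  have e1 : finrank ℝ K * ((Fintype.card l : ℝ) - Fintype.card r) +
      finrank ℝ K * Fintype.card k * (finrank ℝ K * T K l r (σ ^ 2) + 1) =
      (finrank ℝ K * ((Fintype.card l : ℝ) - Fintype.card r) + finrank ℝ K * Fintype.card k) +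
      (finrank ℝ K * Fintype.card k * finrank ℝ K) * T K l r (σ ^ 2) := by ring
  rw [e1, ← lint_lin hε (by positivity) (by positivity)]
  refine lintegral_mono_ae ?_
  filter_upwards [full_rank (m := l) (r := r) b hδ0 hδ hD] with A hA
  have h3 := core_fixed (k := k) (Xh := fun v => Xh (A, v)) A hA h0 hσ
    (hX.comp (measurable_const.prodMk measurable_id))
  refine le_trans (le_of_eq ?_) h3
  congr 1
  ring

end Pool.Agent.V11124.SK
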