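import Pool.Agent.V11124.SK.Risk

open Matrix MeasureTheory ProbabilityTheory Filter Topology Module
open scoped ComplexOrder RealInnerProductSpace ENNReal

namespace Pool.Agent.V11124.SK

set_option linter.all false

section U
variable {K : Type*} [RCLike K]

lemma exists_U {l k : ℕ} (Om : Matrix (Fin (l + k)) (Fin l) K) :
    ∃ (U1 : Matrix (Fin (l + k)) (Fin l) K) (U2 : Matrix (Fin (l + k)) (Fin k) K),
      (∀ a c, nsq (U1 *ᵥ a + U2 *ᵥ c) = nsq a + nsq c) ∧ Omᴴ * U2 = 0 := by
  classical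
  let f : Fin (l + k) → EuclideanSpace K (Fin (l + k)) :=
    Fin.addCases (fun i => (WithLp.toLp 2 (fun a => Om a i) : EuclideanSpace K (Fin (l + k)))) (fun _ => (0 : EuclideanSpace K (Fin (l + k))))
  have hfin : finrank K (EuclideanSpace K (Fin (l + k))) = Fintype.card (Fin (l + k)) := by simp
  let b := InnerProductSpace.gramSchmidtOrthonormalBasis hfin f
  refine ⟨Matrix.of fun a j => b (Fin.castAdd k j) a, Matrix.of fun a j => b (Fin.natAdd l j) a,
    ?_, ?_⟩
  · intro a c
    let w : EuclideanSpace K (Fin (l + k)) := WithLp.toLp 2 (Fin.addCases a c)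
    have h1 := b.sum_repr_symm w
    have h2 : ‖b.repr.symm w‖ = ‖w‖ := b.repr.symm.norm_map w
    have h3 : (Matrix.of fun a j => b (Fin.castAdd k j) a) *ᵥ a +
        (Matrix.of fun a j => b (Fin.natAdd l j) a) *ᵥ c = WithLp.ofLp (b.repr.symm w) := by
      rw [← h1]
      ext i
      rw [Fin.sum_univ_add]
      simp [w, Matrix.mulVec, dotProduct, mul_comm, WithLp.ofLp_sum, Finset.sum_apply]
    rw [h3]
    have h4 := EuclideanSpace.norm_sq_eq (b.repr.symm w)
    have h5 := EuclideanSpace.norm_sq_eq w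
    have h6 : nsq (WithLp.ofLp (b.repr.symm w)) = ‖b.repr.symm w‖ ^ 2 := h4.symm
    rw [h6, h2, h5, Fin.sum_univ_add]
    simp [w, nsq]
  · ext i j
    have h := InnerProductSpace.gramSchmidtOrthonormalBasis_inv_triangular hfin f
      (i := Fin.castAdd k i) (j := Fin.natAdd l j) (by
        rw [Fin.lt_def]; simp; omega)
    have h2 : f (Fin.castAdd k i) = (WithLp.toLp 2 (fun a => Om a i) : EuclideanSpace K (Fin (l + k))) := by simp [f]
    rw [h2, EuclideanSpace.inner_eq_star_dotProduct] at h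
    rw [Matrix.mul_apply, Matrix.zero_apply]
    have h3 := congrArg star h
    rw [star_zero] at h3
    rw [← h3]
    simp only [dotProduct, star_sum, star_mul']
    refine Finset.sum_congr rfl fun a _ => ?_
    simp [Matrix.conjTranspose_apply, b]

end U

section rot
variable {K : Type*} [RCLike K] {n l r k : Type} [Fintype n] [Fintype l] [Fintype r] [Fintype k]
  [DecidableEq n] [DecidableEq l] [DecidableEq r] [DecidableEq k]

/-- the vector of entries of a matrix -/
def ofM {K : Type*} {n r : Type*} (X : Matrix n r K) : n × r → K := fun q => X q.1 q.2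

lemma toM_ofM {K : Type*} {n r : Type*} (X : Matrix n r K) : toM (ofM X) = X := rfl

/-- the change of coordinates -/
noncomputable def Th (U1 : Matrix n l K) (U2 : Matrix n k K) :
    ((l × r → K) × (((r → K) × (l → K)) × ((k × r → K) × (k → K)))) →ₗ[ℝ]
      ((n × r → K) × ((r → K) × (n → K))) where
  toFun q := (ofM (U1 * toM q.1 + U2 * toM q.2.2.1), (q.2.1.1, U1 *ᵥ q.2.1.2 + U2 *ᵥ q.2.2.2))
  map_add' p q := by
    have e1 : toM (p + q).1 = toM p.1 + toM q.1 := rfl
    have e2 : toM (p + q).2.2.1 = toM p.2.2.1 + toM q.2.2.1 := rfl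
    have e3 : (p + q).2.1.2 = p.2.1.2 + q.2.1.2 := rfl
    have e4 : (p + q).2.2.2 = p.2.2.2 + q.2.2.2 := rfl
    rw [e1, e2, e3, e4, Matrix.mul_add, Matrix.mul_add, mulVec_add, mulVec_add]
    refine Prod.ext ?_ (Prod.ext rfl ?_)
    · funext x
      simp only [ofM, Matrix.add_apply, Prod.fst_add, Pi.add_apply]
      ring
    · simp only [Prod.snd_add]
      abel
  map_smul' c q := by
    have e1 : toM (c • q).1 = c • toM q.1 := rfl
    have e2 : toM (c • q).2.2.1 = c • toM q.2.2.1 := rfl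
    have e3 : (c • q).2.1.2 = c • q.2.1.2 := rfl
    have e4 : (c • q).2.2.2 = c • q.2.2.2 := rfl
    rw [e1, e2, e3, e4, Matrix.mul_smul, Matrix.mul_smul, mulVec_smul, mulVec_smul]
    refine Prod.ext ?_ (Prod.ext rfl ?_)
    · funext x
      simp only [ofM, Matrix.add_apply, Matrix.smul_apply, Prod.smul_fst, Pi.smul_apply,
        RingHom.id_apply, smul_add]
    · simp only [Prod.smul_snd, RingHom.id_apply, smul_add]

lemma Th_norm {U1 : Matrix n l K} {U2 : Matrix n k K}
    (hU : ∀ a c, nsq (U1 *ᵥ a + U2 *ᵥ c) = nsq a + nsq c)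
    (q : (l × r → K) × (((r → K) × (l → K)) × ((k × r → K) × (k → K)))) :
    nsq (Th U1 U2 q).1 + (nsq (Th U1 U2 q).2.1 + nsq (Th U1 U2 q).2.2) =
      nsq q.1 + ((nsq q.2.1.1 + nsq q.2.1.2) + (nsq q.2.2.1 + nsq q.2.2.2)) := by
  have h1 : nsq (Th U1 U2 q).1 = nsq q.1 + nsq q.2.2.1 := by
    have e : ∀ i j, (U1 * toM q.1 + U2 * toM q.2.2.1) i j =
      (U1 *ᵥ (fun a => q.1 (a, j)) + U2 *ᵥ (fun a => q.2.2.1 (a, j))) i := fun i j => rfl
    show ∑ x : n × r, ‖(U1 * toM q.1 + U2 * toM q.2.2.1) x.1 x.2‖ ^ 2 = _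
    unfold nsq
    rw [Fintype.sum_prod_type_right, Fintype.sum_prod_type_right, Fintype.sum_prod_type_right,
      ← Finset.sum_add_distrib]
    refine Finset.sum_congr rfl fun j _ => ?_
    have := hU (fun a => q.1 (a, j)) (fun a => q.2.2.1 (a, j))
    unfold nsq at this
    rw [← this]
    rfl
  have h2 : nsq (Th U1 U2 q).2.2 = nsq q.2.1.2 + nsq q.2.2.2 := hU _ _
  have h3 : (Th U1 U2 q).2.1 = q.2.1.1 := rfl
  rw [h1, h2, h3]
  ring

variable [MeasurableSpace K] [BorelSpace K]

set_option synthInstance.maxHeartbeats 400000 in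
lemma Th_mp {U1 : Matrix n l K} {U2 : Matrix n k K}
    (hU : ∀ a c, nsq (U1 *ᵥ a + U2 *ᵥ c) = nsq a + nsq c)
    (hcard : Fintype.card n = Fintype.card l + Fintype.card k) :
    MeasurePreserving (Th (r := r) U1 U2)
      ((G K (l × r)).prod (((G K r).prod (G K l)).prod ((G K (k × r)).prod (G K k))))
      ((G K (n × r)).prod ((G K r).prod (G K n))) := by
  have h1 := (GS.base (K := K) (l × r)).prod (((GS.base (K := K) r).prod (GS.base (K := K) l)).prod
    ((GS.base (K := K) (k × r)).prod (GS.base (K := K) k)))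
  have h2 := (GS.base (K := K) (n × r)).prod ((GS.base (K := K) r).prod (GS.base (K := K) n))
  refine GS.isom h1 h2 (Th U1 U2) (fun q => Th_norm hU q) ?_
  simp only [Module.finrank_prod, Module.finrank_pi_fintype, Finset.sum_const, Finset.card_univ,
    smul_eq_mul, Fintype.card_prod, hcard]
  ring

end rot

end Pool.Agent.V11124.SK
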