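import Mathlib

open MeasureTheory ProbabilityTheory Measure
open scoped ENNReal NNReal RealInnerProductSpace

namespace Pool.Agent.V11124.SK

lemma hasDerivAt_gpdf (x : ℝ) :
    HasDerivAt (gaussianPDFReal 0 1) (-(x * gaussianPDFReal 0 1 x)) x := by
  have h1 : gaussianPDFReal 0 1 = fun x : ℝ =>
      (√(2 * Real.pi * 1))⁻¹ * Real.exp (-x ^ 2 / 2) := by
    ext y
    simp [gaussianPDFReal]
  rw [h1]
  have h2 : HasDerivAt (fun y : ℝ => -y ^ 2 / 2) (-x) x :=
    (((hasDerivAt_pow 2 x).fun_neg).div_const 2).congr_deriv (by norm_num; ring)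
  exact ((h2.exp).const_mul (√(2 * Real.pi * 1))⁻¹).congr_deriv (by ring)

lemma bdd_integrable {α : Type*} [MeasurableSpace α] {μ : Measure α} [IsFiniteMeasure μ]
    {f : α → ℝ} (hf : AEStronglyMeasurable f μ) {C : ℝ} (hC : ∀ x, |f x| ≤ C) :
    Integrable f μ :=
  Integrable.of_bound hf C (ae_of_all _ fun x => by simpa using hC x)

lemma stein1 {f f' : ℝ → ℝ} {C : ℝ} (hf : ∀ x, HasDerivAt f (f' x) x) (hb : ∀ x, |f x| ≤ C)
    (hb' : ∀ x, |f' x| ≤ C) (hc' : Continuous f') :
    ∫ x, x * f x ∂(gaussianReal 0 1) = ∫ x, f' x ∂(gaussianReal 0 1) := by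
  rw [integral_gaussianReal_eq_integral_smul one_ne_zero,
    integral_gaussianReal_eq_integral_smul one_ne_zero]
  have hfc : Continuous f := continuous_iff_continuousAt.2 fun x => (hf x).continuousAt
  have hp : Integrable (gaussianPDFReal 0 1) := integrable_gaussianPDFReal 0 1
  have hpx : Integrable (fun x => -(x * gaussianPDFReal 0 1 x)) := by
    have h1 : Integrable (fun x : ℝ => x) (gaussianReal 0 1) := by
      have := (memLp_id_gaussianReal (μ := 0) (v := 1) 1).integrable (by simp)
      exact this
    rw [gaussianReal_of_var_ne_zero _ one_ne_zero] at h1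
    have h2 := (integrable_withDensity_iff_integrable_smul' (measurable_gaussianPDF 0 1)
      (ae_of_all _ fun _ => gaussianPDF_lt_top)).1 h1
    refine h2.neg.congr (ae_of_all _ fun x => ?_)
    simp [mul_comm]
  have key := integral_mul_deriv_eq_deriv_mul_of_integrable (u := f) (v := gaussianPDFReal 0 1)
    (u' := f') (v' := fun x => -(x * gaussianPDFReal 0 1 x)) (fun x _ => hf x)
    (fun x _ => hasDerivAt_gpdf x)
    (by
      exact hpx.bdd_mul (c := C) hfc.aestronglyMeasurable
        (ae_of_all _ fun x => by simpa using hb x))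
    (by
      exact hp.bdd_mul (c := C) hc'.aestronglyMeasurable
        (ae_of_all _ fun x => by simpa using hb' x))
    (by
      exact hp.bdd_mul (c := C) hfc.aestronglyMeasurable
        (ae_of_all _ fun x => by simpa using hb x))
  have e1 : ∀ x, gaussianPDFReal 0 1 x • (x * f x) = -(f x * -(x * gaussianPDFReal 0 1 x)) := by
    intro x; simp only [smul_eq_mul]; ring
  have e2 : ∀ x, gaussianPDFReal 0 1 x • f' x = f' x * gaussianPDFReal 0 1 x := by
    intro x; simp only [smul_eq_mul]; ring
  simp only [e1, e2]
  rw [integral_neg, key, neg_neg]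

/-- resampling one coordinate preserves a product measure -/
lemma resample {J : Type*} [Fintype J] [DecidableEq J] (k : J) {X : J → Type*}
    [∀ j, MeasurableSpace (X j)] (μ : ∀ j, Measure (X j)) [∀ j, IsProbabilityMeasure (μ j)] :
    MeasurePreserving (fun p : (∀ j, X j) × X k => Function.update p.1 k p.2)
      ((Measure.pi μ).prod (μ k)) (Measure.pi μ) := by
  have hm : Measurable (fun p : (∀ j, X j) × X k => Function.update p.1 k p.2) := by
    refine measurable_pi_iff.2 fun j => ?_
    by_cases hj : j = k
    · subst hj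
      simpa using measurable_snd
    · simp only [Function.update_of_ne hj]
      exact (measurable_pi_apply j).comp measurable_fst
  refine ⟨hm, ?_⟩
  symm
  refine Measure.pi_eq fun s hs => ?_
  rw [Measure.map_apply hm (MeasurableSet.univ_pi hs)]
  have : (fun p : (∀ j, X j) × X k => Function.update p.1 k p.2) ⁻¹' (Set.univ.pi s) =
      (Set.univ.pi (Function.update s k Set.univ)) ×ˢ (s k) := by
    ext p
    simp only [Set.mem_preimage, Set.mem_pi, Set.mem_univ, true_implies, Set.mem_prod]
    constructor
    · intro h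
      refine ⟨fun j => ?_, by simpa using h k⟩
      by_cases hj : j = k
      · subst hj; simp
      · simpa [Function.update_of_ne hj] using h j
    · rintro ⟨h1, h2⟩ j
      by_cases hj : j = k
      · subst hj; simpa using h2
      · simpa [Function.update_of_ne hj] using h1 j
  rw [this, Measure.prod_prod, Measure.pi_pi]
  rw [← Finset.mul_prod_erase Finset.univ _ (Finset.mem_univ k),
    ← Finset.mul_prod_erase Finset.univ (fun j => (μ j) (s j)) (Finset.mem_univ k)]
  simp only [Function.update_self, measure_univ, one_mul]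
  rw [mul_comm]
  congr 1
  refine Finset.prod_congr rfl fun j hj => ?_
  rw [Function.update_of_ne (Finset.ne_of_mem_erase hj)]

lemma stein_pi {J : Type*} [Fintype J] [DecidableEq J] (k : J) {φ φ' : (J → ℝ) → ℝ} {C : ℝ}
    (hφ : ∀ g t, HasDerivAt (fun s => φ (Function.update g k s)) (φ' (Function.update g k t)) t)
    (hc : Continuous φ) (hc' : Continuous φ') (hb : ∀ x, |φ x| ≤ C) (hb' : ∀ x, |φ' x| ≤ C) :
    ∫ g, g k * φ g ∂(Measure.pi fun _ : J => gaussianReal 0 1) =
      ∫ g, φ' g ∂(Measure.pi fun _ : J => gaussianReal 0 1) := by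
  set γ := Measure.pi fun _ : J => gaussianReal 0 1 with hγ
  have hmp := resample k (fun _ : J => gaussianReal 0 1)
  have hi : Integrable (fun g : J → ℝ => g k * φ g) γ := by
    have h1 : Integrable (fun x : ℝ => x) (gaussianReal 0 1) := by
      have := (memLp_id_gaussianReal (μ := 0) (v := 1) 1).integrable (by simp)
      exact this
    have h2 : Integrable (fun g : J → ℝ => g k) γ :=
      (measurePreserving_eval (fun _ : J => gaussianReal 0 1) k).integrable_comp_of_integrable h1
    have h3 := h2.bdd_mul (c := C) (f := φ) hc.aestronglyMeasurable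
      (ae_of_all _ fun x => by simpa using hb x)
    refine h3.congr (ae_of_all _ fun x => ?_)
    simp [mul_comm]
  have hi' : Integrable φ' γ := bdd_integrable hc'.aestronglyMeasurable hb'
  have hu : ∀ F : (J → ℝ) → ℝ, Integrable F γ → ∫ g, F g ∂γ =
      ∫ g, (∫ t, F (Function.update g k t) ∂(gaussianReal 0 1)) ∂γ := by
    intro F hF
    have hF2 : Integrable F (Measure.map (fun p : (J → ℝ) × ℝ => Function.update p.1 k p.2)
        (γ.prod (gaussianReal 0 1))) := by rw [hγ, hmp.map_eq]; exact hF
    conv_lhs => rw [hγ, ← hmp.map_eq]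
    rw [integral_map hmp.measurable.aemeasurable (by rw [← hγ]; exact hF2.aestronglyMeasurable)]
    have := (integrable_map_measure hF2.aestronglyMeasurable hmp.measurable.aemeasurable).1 hF2
    exact integral_prod _ this
  rw [hu _ hi, hu _ hi']
  congr 1
  ext g
  simp only [Function.update_self]
  exact stein1 (C := C) (fun t => hφ g t) (fun t => hb _) (fun t => hb' _)
    (hc'.comp (continuous_const.update k continuous_id))

variable {E : Type*} [NormedAddCommGroup E] [InnerProductSpace ℝ E] [FiniteDimensional ℝ E]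
  [MeasurableSpace E] [BorelSpace E]

lemma stein_E {J : Type*} [Fintype J] (b : OrthonormalBasis J ℝ E) (k : J) {φ φ' : E → ℝ} {C : ℝ}
    (hφ : ∀ x, HasDerivAt (fun s : ℝ => φ (x + s • b k)) (φ' x) 0)
    (hc : Continuous φ) (hc' : Continuous φ') (hb : ∀ x, |φ x| ≤ C) (hb' : ∀ x, |φ' x| ≤ C) :
    ∫ x, ⟪b k, x⟫ * φ x ∂(stdGaussian E) = ∫ x, φ' x ∂(stdGaussian E) := by
  classical
  have hm : Continuous (fun x : J → ℝ => ∑ i, x i • b i) := by fun_prop
  rw [stdGaussian_eq_map_pi_orthonormalBasis b, integral_map hm.measurable.aemeasurable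
    (by fun_prop), integral_map hm.measurable.aemeasurable (by fun_prop)]
  have e : ∀ g : J → ℝ, ⟪b k, ∑ i, g i • b i⟫ = g k := by
    intro g
    rw [inner_sum, Finset.sum_eq_single k]
    · simp [real_inner_smul_right]
    · intro j _ hj
      rw [real_inner_smul_right, b.orthonormal.2 (Ne.symm hj), mul_zero]
    · simp
  simp only [e]
  refine stein_pi k (C := C) (φ := fun g => φ (∑ i, g i • b i))
    (φ' := fun g => φ' (∑ i, g i • b i)) ?_ (hc.comp hm) (hc'.comp hm) (fun _ => hb _)
    (fun _ => hb' _)
  intro g t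
  set x := ∑ i, Function.update g k t i • b i with hx
  have h1 : (fun s : ℝ => φ (∑ i, Function.update g k s i • b i)) =
      fun s => φ (x + (s - t) • b k) := by
    ext s
    congr 1
    rw [hx, ← Finset.add_sum_erase Finset.univ _ (Finset.mem_univ k),
      ← Finset.add_sum_erase Finset.univ (fun i => Function.update g k t i • b i)
        (Finset.mem_univ k)]
    simp only [Function.update_self]
    have : ∑ i ∈ Finset.univ.erase k, Function.update g k s i • b i =
        ∑ i ∈ Finset.univ.erase k, Function.update g k t i • b i := by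
      refine Finset.sum_congr rfl fun j hj => ?_
      rw [Function.update_of_ne (Finset.ne_of_mem_erase hj),
        Function.update_of_ne (Finset.ne_of_mem_erase hj)]
    rw [this, sub_smul]
    abel
  rw [h1]
  have h2 := hφ x
  have h3 : HasDerivAt (fun s : ℝ => s - t) 1 t := (hasDerivAt_id t).sub_const t
  have h4 : HasDerivAt (fun s : ℝ => φ (x + s • b k)) (φ' x) (t - t) := by simpa using h2
  have := HasDerivAt.comp (h₂ := fun s : ℝ => φ (x + s • b k)) (h := fun s : ℝ => s - t) t h4 h3
  simpa [Function.comp_def] using this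

end Pool.Agent.V11124.SK
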