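import Pool.Agent.V11124.SK.Div

open Matrix MeasureTheory ProbabilityTheory Filter Topology Module
open scoped ComplexOrder RealInnerProductSpace ENNReal

namespace Pool.Agent.V11124.SK

set_option linter.all false

variable {K : Type*} [RCLike K] [MeasurableSpace K] [BorelSpace K]
  {m r : Type*} [Fintype m] [Fintype r] [DecidableEq m] [DecidableEq r]
  {J : Type*} [Fintype J]

variable (K m r) in
/-- expected trace of the regularised inverse Gram matrix -/
noncomputable def T (ε : ℝ) : ℝ := ∫ w : m × r → K, tr (toM w) ε ∂(G K (m × r))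

lemma T_rel (b : OrthonormalBasis J ℝ K) {δ : ℝ}
    (hδ : ∀ z : K, ∑ k, RCLike.re (z ^ 2 * star (b k) ^ 2) = δ * ‖z‖ ^ 2) {ε : ℝ} (hε : 0 < ε) :
    (Fintype.card r : ℝ) = ((Fintype.card J : ℝ) * (Fintype.card m - Fintype.card r) - δ) *
      T K m r ε + ε * T K m r ε +
      Fintype.card J * (ε * ∫ w : m × r → K, tr (toM w) ε ^ 2 ∂(G K (m × r))) +
      δ * (ε * ∫ w : m × r → K, frob2 (M (toM w) ε) ∂(G K (m × r))) := by
  have h := stein_id (m := m) (r := r) b hδ hε
  have i1 := int_tr (K := K) (m := m) (r := r) hε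
  have i2 := int_tr2 (K := K) (m := m) (r := r) hε
  have i3 := int_frobM (K := K) (m := m) (r := r) hε
  have e1 : ∫ w : m × r → K, ((Fintype.card r : ℝ) - ε * tr (toM w) ε) ∂(G K (m × r)) =
      Fintype.card r - ε * T K m r ε := by
    rw [integral_sub (integrable_const _) (i1.const_mul _), integral_const_mul]
    simp [T]
  have e2 : ∫ w : m × r → K, ((Fintype.card J : ℝ) * Fintype.card m * tr (toM w) ε -
      δ * (tr (toM w) ε - ε * frob2 (M (toM w) ε)) -
      Fintype.card J * ((Fintype.card r - ε * tr (toM w) ε) * tr (toM w) ε)) ∂(G K (m × r)) =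
      (Fintype.card J : ℝ) * Fintype.card m * T K m r ε -
      δ * (T K m r ε - ε * ∫ w : m × r → K, frob2 (M (toM w) ε) ∂(G K (m × r))) -
      Fintype.card J * (Fintype.card r * T K m r ε -
        ε * ∫ w : m × r → K, tr (toM w) ε ^ 2 ∂(G K (m × r))) := by
    have e3 : ∀ w : m × r → K, ((Fintype.card J : ℝ) * Fintype.card m * tr (toM w) ε -
      δ * (tr (toM w) ε - ε * frob2 (M (toM w) ε)) -
      Fintype.card J * ((Fintype.card r - ε * tr (toM w) ε) * tr (toM w) ε)) =
      ((Fintype.card J : ℝ) * Fintype.card m - δ - Fintype.card J * Fintype.card r) *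
        tr (toM w) ε + (δ * ε) * frob2 (M (toM w) ε) +
        (Fintype.card J * ε) * tr (toM w) ε ^ 2 := by
      intro w; ring
    have i13 : Integrable (fun w : m × r → K =>
        ((Fintype.card J : ℝ) * Fintype.card m - δ - Fintype.card J * Fintype.card r) *
        tr (toM w) ε + (δ * ε) * frob2 (M (toM w) ε)) (G K (m × r)) :=
      (i1.const_mul _).add (i3.const_mul _)
    rw [integral_congr_ae (ae_of_all _ e3), integral_add i13
      (i2.const_mul _), integral_add (i1.const_mul _) (i3.const_mul _), integral_const_mul,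
      integral_const_mul, integral_const_mul]
    unfold T
    ring
  rw [e1, e2] at h
  linear_combination h

lemma T_nonneg {ε : ℝ} (hε : 0 < ε) : 0 ≤ T K m r ε :=
  integral_nonneg fun w => tr_nonneg _ hε

lemma T_anti {ε ε' : ℝ} (hε : 0 < ε) (h : ε ≤ ε') : T K m r ε' ≤ T K m r ε :=
  integral_mono (int_tr (hε.trans_le h)) (int_tr hε) fun w => tr_anti _ hε h

lemma T_le (b : OrthonormalBasis J ℝ K) {δ : ℝ} (hδ0 : 0 ≤ δ)
    (hδ : ∀ z : K, ∑ k, RCLike.re (z ^ 2 * star (b k) ^ 2) = δ * ‖z‖ ^ 2) {ε : ℝ} (hε : 0 < ε) :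
    ((Fintype.card J : ℝ) * (Fintype.card m - Fintype.card r) - δ) * T K m r ε ≤
      Fintype.card r := by
  have h := T_rel (m := m) (r := r) b hδ hε
  have h1 := T_nonneg (K := K) (m := m) (r := r) hε
  have h2 : 0 ≤ ∫ w : m × r → K, tr (toM w) ε ^ 2 ∂(G K (m × r)) :=
    integral_nonneg fun w => sq_nonneg _
  have h3 : 0 ≤ ∫ w : m × r → K, frob2 (M (toM w) ε) ∂(G K (m × r)) :=
    integral_nonneg fun w => frob2_nonneg _
  have h4 := mul_nonneg hε.le h1
  have h5 : 0 ≤ (Fintype.card J : ℝ) * (ε * ∫ w : m × r → K, tr (toM w) ε ^ 2 ∂(G K (m × r))) := by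
    positivity
  have h6 : 0 ≤ δ * (ε * ∫ w : m × r → K, frob2 (M (toM w) ε) ∂(G K (m × r))) := by positivity
  linarith

lemma T_lower (b : OrthonormalBasis J ℝ K) {δ : ℝ} (hδ0 : 0 ≤ δ)
    (hδ : ∀ z : K, ∑ k, RCLike.re (z ^ 2 * star (b k) ^ 2) = δ * ‖z‖ ^ 2) {ε : ℝ} (hε : 0 < ε) :
    (Fintype.card r : ℝ) ≤ ((Fintype.card J : ℝ) * (Fintype.card m - Fintype.card r) - δ) *
      T K m r ε + ε * T K m r ε +
      (Fintype.card J + δ) * (2 * Fintype.card r * (T K m r ε - T K m r (2 * ε))) := by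
  have h := T_rel (m := m) (r := r) b hδ hε
  have h2 : ε * ∫ w : m × r → K, tr (toM w) ε ^ 2 ∂(G K (m × r)) ≤
      2 * Fintype.card r * (T K m r ε - T K m r (2 * ε)) := by
    unfold T
    rw [← integral_const_mul, ← integral_sub (int_tr hε) (int_tr (by positivity)),
      ← integral_const_mul]
    exact integral_mono ((int_tr2 hε).const_mul _)
      (((int_tr hε).sub (int_tr (by positivity))).const_mul _) fun w => tr_gap _ hε
  have h3 : ∫ w : m × r → K, frob2 (M (toM w) ε) ∂(G K (m × r)) ≤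
      ∫ w : m × r → K, tr (toM w) ε ^ 2 ∂(G K (m × r)) :=
    integral_mono (int_frobM hε) (int_tr2 hε) fun w => frobM_le _ hε
  have h4 : ε * ∫ w : m × r → K, frob2 (M (toM w) ε) ∂(G K (m × r)) ≤
      2 * Fintype.card r * (T K m r ε - T K m r (2 * ε)) :=
    (mul_le_mul_of_nonneg_left h3 hε.le).trans h2
  have h5 := mul_le_mul_of_nonneg_left h2 (by positivity : (0 : ℝ) ≤ Fintype.card J)
  have h6 := mul_le_mul_of_nonneg_left h4 hδ0
  linarith

lemma T_sup (b : OrthonormalBasis J ℝ K) {δ : ℝ} (hδ0 : 0 ≤ δ)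
    (hδ : ∀ z : K, ∑ k, RCLike.re (z ^ 2 * star (b k) ^ 2) = δ * ‖z‖ ^ 2)
    (hD : 0 < (Fintype.card J : ℝ) * (Fintype.card m - Fintype.card r) - δ) {c : ℝ}
    (hc : c < Fintype.card r / ((Fintype.card J : ℝ) * (Fintype.card m - Fintype.card r) - δ)) :
    ∃ ε : ℝ, 0 < ε ∧ c < T K m r ε := by
  set D := (Fintype.card J : ℝ) * (Fintype.card m - Fintype.card r) - δ with hDdef
  set a : ℕ → ℝ := fun k => T K m r ((1 / 2) ^ k) with ha
  have hp : ∀ k : ℕ, (0 : ℝ) < (1 / 2) ^ k := fun k => by positivity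
  have hmono : Monotone a := by
    refine monotone_nat_of_le_succ fun k => T_anti (hp _) ?_
    rw [pow_succ]
    have := hp k
    linarith
  have hbdd : BddAbove (Set.range a) := by
    refine ⟨Fintype.card r / D, ?_⟩
    rintro _ ⟨k, rfl⟩
    rw [le_div_iff₀ hD, mul_comm]
    exact T_le b hδ0 hδ (hp k)
  have hlim := tendsto_atTop_ciSup hmono hbdd
  set A := ⨆ k, a k with hA
  have hineq : ∀ k, (Fintype.card r : ℝ) ≤ D * a (k + 1) + (1 / 2) ^ (k + 1) * a (k + 1) +
      (Fintype.card J + δ) * (2 * Fintype.card r * (a (k + 1) - a k)) := by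
    intro k
    have h := T_lower (m := m) (r := r) b hδ0 hδ (hp (k + 1))
    have e : (2 : ℝ) * (1 / 2) ^ (k + 1) = (1 / 2) ^ k := by rw [pow_succ]; ring
    rw [e] at h
    exact h
  have hlim1 : Tendsto (fun k => a (k + 1)) atTop (𝓝 A) := (tendsto_add_atTop_iff_nat 1).2 hlim
  have hpow : Tendsto (fun k : ℕ => ((1 : ℝ) / 2) ^ (k + 1)) atTop (𝓝 0) :=
    (tendsto_add_atTop_iff_nat 1).2
      (tendsto_pow_atTop_nhds_zero_of_lt_one (by norm_num) (by norm_num))
  have hl : Tendsto (fun k => D * a (k + 1) + (1 / 2) ^ (k + 1) * a (k + 1) +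
      (Fintype.card J + δ) * (2 * Fintype.card r * (a (k + 1) - a k))) atTop
      (𝓝 (D * A + 0 * A + (Fintype.card J + δ) * (2 * Fintype.card r * (A - A)))) :=
    ((hlim1.const_mul D).add (hpow.mul hlim1)).add
      (((hlim1.sub hlim).const_mul _).const_mul _)
  have hfin := ge_of_tendsto' hl hineq
  have hA' : c < A := by
    refine hc.trans_le ?_
    rw [div_le_iff₀ hD]
    simp at hfin
    linarith
  obtain ⟨k, hk⟩ := (hlim.eventually (lt_mem_nhds hA')).exists
  exact ⟨(1 / 2) ^ k, hp k, hk⟩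

lemma full_rank (b : OrthonormalBasis J ℝ K) {δ : ℝ} (hδ0 : 0 ≤ δ)
    (hδ : ∀ z : K, ∑ k, RCLike.re (z ^ 2 * star (b k) ^ 2) = δ * ‖z‖ ^ 2)
    (hD : 0 < (Fintype.card J : ℝ) * (Fintype.card m - Fintype.card r) - δ) :
    ∀ᵐ w : m × r → K ∂(G K (m × r)), IsUnit ((toM w)ᴴ * toM w).det := by
  set D := (Fintype.card J : ℝ) * (Fintype.card m - Fintype.card r) - δ with hDdef
  set s : Set (m × r → K) := {w | ¬ IsUnit ((toM w)ᴴ * toM w).det} with hs
  have h1 : ∀ ε : ℝ, 0 < ε → (G K (m × r)).real s ≤ ε * (Fintype.card r / D) := by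
    intro ε hε
    have h2 := mul_meas_ge_le_integral_of_nonneg (μ := G K (m × r))
      (f := fun w : m × r → K => tr (toM w) ε) (ae_of_all _ fun w => tr_nonneg _ hε) (int_tr hε)
      (1 / ε)
    have h3 : (G K (m × r)).real s ≤ (G K (m × r)).real {w | 1 / ε ≤ tr (toM w) ε} :=
      measureReal_mono (fun w hw => tr_sing _ hw hε)
    have h4 : T K m r ε ≤ Fintype.card r / D := by
      rw [le_div_iff₀ hD, mul_comm]
      exact T_le b hδ0 hδ hε
    have h5 : 1 / ε * (G K (m × r)).real s ≤ Fintype.card r / D :=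
      (mul_le_mul_of_nonneg_left h3 (by positivity)).trans (h2.trans h4)
    calc (G K (m × r)).real s = ε * (1 / ε * (G K (m × r)).real s) := by field_simp
      _ ≤ _ := mul_le_mul_of_nonneg_left h5 hε.le
  have h2 : (G K (m × r)).real s ≤ 0 := by
    have hl : Tendsto (fun ε : ℝ => ε * (Fintype.card r / D)) (𝓝[>] 0) (𝓝 0) := by
      have : Tendsto (fun ε : ℝ => ε * (Fintype.card r / D)) (𝓝 0) (𝓝 (0 * (Fintype.card r / D))) :=
        tendsto_id.mul_const _
      rw [zero_mul] at this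
      exact this.mono_left nhdsWithin_le_nhds
    refine ge_of_tendsto hl ?_
    filter_upwards [self_mem_nhdsWithin] with ε hε
    exact h1 ε hε
  have h3 : (G K (m × r)).real s = 0 := le_antisymm h2 measureReal_nonneg
  rw [ae_iff]
  exact (measureReal_eq_zero_iff).1 h3

end Pool.Agent.V11124.SK
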